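import Pool.Agent.U585.CV.Near

/-!
# Covering integers by one residue class per prime near `N ^ α`: almost every interval

Let `0 < α < 1`. For EVERY choice `a` of the residues and every set `Q` of primes `p` with `N ^ α ≤ p < 2 N ^ α` we consider
all the intervals `(M, M + N]`, `T ≤ M < T + X`, in the place of the interval `[1, N]`.
-/

set_option autoImplicit false

namespace Pool.Agent.Results.MP_bb5cc8_nt.AlmostEveryInterval

open Finset

open Classical in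
/-- The set of the primes `p` with `N ^ α ≤ p < 2 N ^ α`. -/
noncomputable def primesNear (α : ℝ) (N : ℕ) : Finset ℕ :=
  (range ⌈2 * (N : ℝ) ^ α⌉₊).filter (fun p => p.Prime ∧ (N : ℝ) ^ α ≤ p)

/-- The number of the primes `p` in `Q` with `n ≡ a p (mod p)`. -/
noncomputable def multiplicity (Q : Finset ℕ) (a : ℕ → ℤ) (n : ℤ) : ℕ :=
  (Q.filter (fun p : ℕ => (p : ℤ) ∣ n - a p)).card

/-- The number of the integers `n` with `M < n ≤ M + N` such that `n ≡ a p (mod p)` for some `p` in `Q`. -/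
noncomputable def covered (Q : Finset ℕ) (a : ℕ → ℤ) (M : ℤ) (N : ℕ) : ℕ :=
  ((Ioc M (M + N)).filter (fun n : ℤ => ∃ p ∈ Q, (p : ℤ) ∣ n - a p)).card

open Pool.Agent.U585.CV

lemma ev_rpow (η c : ℝ) (hη : 0 < η) : ∀ᶠ N : ℕ in Filter.atTop, c ≤ (N : ℝ) ^ η :=
  (((tendsto_rpow_atTop hη).comp tendsto_natCast_atTop_atTop)).eventually_ge_atTop c

lemma ev_log (η c : ℝ) (hη : 0 < η) (hc : 0 < c) : ∀ᶠ N : ℕ in Filter.atTop, c * Real.log N ≤ (N : ℝ) ^ η := by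
  have h1 := (isLittleO_log_rpow_atTop hη).bound (show 0 < 1 / c by positivity)
  have h2 := tendsto_natCast_atTop_atTop.eventually h1
  filter_upwards [h2, Filter.eventually_ge_atTop 1] with N hN hN1
  have hN1' : (1 : ℝ) ≤ N := by exact_mod_cast hN1
  have h3 := Real.log_nonneg hN1'
  rw [Real.norm_of_nonneg h3, Real.norm_of_nonneg (by positivity)] at hN
  calc c * Real.log N ≤ c * (1 / c * (N : ℝ) ^ η) := mul_le_mul_of_nonneg_left hN hc.le
    _ = (N : ℝ) ^ η := by field_simp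

lemma ev_four (α : ℝ) (hα1 : α < 1) : ∀ᶠ N : ℕ in Filter.atTop, 4 * (N : ℝ) ^ α ≤ N := by
  filter_upwards [ev_rpow (1 - α) 4 (by linarith), Filter.eventually_ge_atTop 1] with N h hN1
  have hN0 : (0 : ℝ) < N := by exact_mod_cast hN1
  calc 4 * (N : ℝ) ^ α ≤ (N : ℝ) ^ (1 - α) * (N : ℝ) ^ α := mul_le_mul_of_nonneg_right h (by positivity)
    _ = N := by rw [← Real.rpow_add hN0]; simp

lemma div_rp (α : ℝ) (N : ℕ) (hN : 1 ≤ N) : (N : ℝ) / (N : ℝ) ^ α = (N : ℝ) ^ (1 - α) := by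
  have hN0 : (0 : ℝ) < N := by exact_mod_cast hN
  rw [Real.rpow_sub hN0, Real.rpow_one]

lemma part1 (α : ℝ) (k N : ℕ) (hk : 2 ≤ k) (hN : 4 * (N : ℝ) ^ α ≤ N) (hN1 : 1 ≤ N) (Q : Finset ℕ) (hQ : Q ⊆ near α N)
    (a : ℕ → ℤ) (T : ℤ) (X : ℕ) (V : ℝ) (hV : 0 < V) (h : 16 * k * V ≤ Q.card * (N : ℝ) ^ (1 - α)) :
    (((Ico T (T + X)).filter (fun M : ℤ => (cov Q a M N : ℝ) ≤ V)).card : ℝ) ≤
      2 * 8 ^ k * (V / N) ^ (k - 1) * (X + N + (N : ℝ) ^ (k * α)) := by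
  have hN0 : (0 : ℝ) < N := by exact_mod_cast hN1
  have h1 := main Q a ((N : ℝ) ^ α) (by positivity) N hN (fun p hp => mem_near (hQ hp)) k hk T X V hV
    (by rw [div_rp α N hN1]; exact h)
  have e : ((N : ℝ) ^ α) ^ k = (N : ℝ) ^ (k * α) := by
    rw [← Real.rpow_natCast, ← Real.rpow_mul hN0.le, mul_comm]
  rwa [e] at h1

lemma part2 (α : ℝ) (hα : 0 < α) (hα1 : α < 1) (k : ℕ) (ε : ℝ) (hk : 2 ≤ k) (hε : 0 < ε) :
    ∃ N₀ : ℕ, ∀ N : ℕ, N₀ ≤ N → ∀ (a : ℕ → ℤ) (T : ℤ) (X : ℕ), N ≤ X → (N : ℝ) ^ (k * α) ≤ X →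
      (((Ico T (T + X)).filter (fun M : ℤ => (cov (near α N) a M N : ℝ) ≤ (N : ℝ) ^ (1 - ε))).card : ℝ) ≤
        6 * 8 ^ k * (N : ℝ) ^ (-((k - 1 : ℝ) * ε)) * X := by
  obtain ⟨N₁, h1⟩ := near_low α hα hα1
  have hk0 : (0 : ℝ) < k := by exact_mod_cast (by omega : 0 < k)
  obtain ⟨N₂, h2⟩ := Filter.eventually_atTop.1 ((ev_four α hα1).and (ev_log ε (64 * k) hε (by positivity)))
  refine ⟨N₁ + N₂ + 3, fun N hN a T X hNX hX => ?_⟩
  have hN3 : (3 : ℝ) ≤ N := by exact_mod_cast (by omega : 3 ≤ N)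
  have hN0 : (0 : ℝ) < N := by linarith
  have hL : 0 < Real.log N := Real.log_pos (by linarith)
  obtain ⟨h4, h5⟩ := h2 N (by omega)
  have h6 := h1 N (by omega)
  have h7 := part1 α k N hk h4 (by omega) (near α N) (Subset.refl _) a T X ((N : ℝ) ^ (1 - ε)) (by positivity) (by
    have h8 : (N : ℝ) / (4 * Real.log N) ≤ (near α N).card * (N : ℝ) ^ (1 - α) := by
      calc (N : ℝ) / (4 * Real.log N) = (N : ℝ) ^ α / (4 * Real.log N) * (N : ℝ) ^ (1 - α) := by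
            rw [div_mul_eq_mul_div, ← Real.rpow_add hN0]; simp
        _ ≤ _ := mul_le_mul_of_nonneg_right h6 (by positivity)
    refine le_trans ?_ h8
    rw [le_div_iff₀ (by positivity)]
    calc 16 * k * (N : ℝ) ^ (1 - ε) * (4 * Real.log N) = (N : ℝ) ^ (1 - ε) * (64 * k * Real.log N) := by ring
      _ ≤ (N : ℝ) ^ (1 - ε) * (N : ℝ) ^ ε := mul_le_mul_of_nonneg_left h5 (by positivity)
      _ = N := by rw [← Real.rpow_add hN0]; simp)
  refine h7.trans ?_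
  have e : ((N : ℝ) ^ (1 - ε) / N) ^ (k - 1) = (N : ℝ) ^ (-((k - 1 : ℝ) * ε)) := by
    have e1 : (N : ℝ) ^ (1 - ε) / N = (N : ℝ) ^ (-ε) := by
      rw [Real.rpow_sub hN0, Real.rpow_neg hN0.le, Real.rpow_one]; field_simp
    rw [e1, ← Real.rpow_natCast, ← Real.rpow_mul hN0.le]
    congr 1
    rw [Nat.cast_sub (by omega)]; push_cast; ring
  rw [e]
  have hNX' : (N : ℝ) ≤ X := by exact_mod_cast hNX
  have h9 : (X : ℝ) + N + (N : ℝ) ^ (k * α) ≤ 3 * X := by linarith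
  have h10 : (0 : ℝ) ≤ 2 * 8 ^ k * (N : ℝ) ^ (-((k - 1 : ℝ) * ε)) := by positivity
  calc 2 * 8 ^ k * (N : ℝ) ^ (-((k - 1 : ℝ) * ε)) * (X + N + (N : ℝ) ^ (k * α))
      ≤ 2 * 8 ^ k * (N : ℝ) ^ (-((k - 1 : ℝ) * ε)) * (3 * X) := mul_le_mul_of_nonneg_left h9 h10
    _ = _ := by ring

lemma part3 (α : ℝ) (hα : 0 < α) (hα1 : α < 1) (ε B : ℝ) (hε : 0 < ε) :
    ∃ K N₀ : ℕ, ∀ N : ℕ, N₀ ≤ N → ∀ (a : ℕ → ℤ) (T : ℤ) (X : ℕ), (N : ℝ) ^ K ≤ X →
      ∃ E : Finset ℤ, (E.card : ℝ) ≤ X * (N : ℝ) ^ (-B) ∧ ∀ M ∈ Ico T (T + X), M ∉ E →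
        (∀ n ∈ Ioc M (M + N), (mult (near α N) a n : ℝ) ≤ (N : ℝ) ^ ε) ∧
        ∀ Q ⊆ near α N, (Q.card : ℝ) * (N : ℝ) ^ (1 - α - ε) / 4 ≤ cov Q a M N := by
  classical
  set k : ℕ := ⌈(B + 2) / ε⌉₊ + 1 with hk
  have hk1 : (B + 2) / ε ≤ k := by
    have := Nat.le_ceil ((B + 2) / ε)
    rw [hk]; push_cast; linarith
  have hk2 : B + 2 ≤ ε * k := by
    rw [div_le_iff₀ hε] at hk1; linarith
  have hk0 : 1 ≤ k := by omega
  obtain ⟨N₂, h2⟩ := Filter.eventually_atTop.1 ((ev_four α hα1).and (ev_rpow ε (2 * k) hε))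
  refine ⟨k, N₂ + 3 * 6 ^ k + 3, fun N hN a T X hX => ?_⟩
  have hN3 : (3 : ℝ) ≤ N := by exact_mod_cast (by omega : 3 ≤ N)
  have hN6 : (3 : ℝ) * 6 ^ k ≤ N := by exact_mod_cast (by omega : 3 * 6 ^ k ≤ N)
  have hN0 : (0 : ℝ) < N := by linarith
  have hN1 : (1 : ℝ) ≤ N := by linarith
  obtain ⟨h4, h5⟩ := h2 N (by omega)
  have hW0 : (0 : ℝ) < (N : ℝ) ^ ε := by positivity
  have hY1 : 1 ≤ (N : ℝ) ^ α := Real.one_le_rpow hN1 hα.le
  have h6 := mult_bad (near α N) a ((N : ℝ) ^ α) hY1 N (fun p hp => mem_near hp) k T X ((N : ℝ) ^ ε) h5 hW0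
  have hNX : (N : ℝ) ≤ X := by
    refine le_trans ?_ hX
    calc (N : ℝ) = (N : ℝ) ^ 1 := (pow_one _).symm
      _ ≤ (N : ℝ) ^ k := pow_le_pow_right₀ hN1 hk0
  have hYX : ((N : ℝ) ^ α) ^ k ≤ X := by
    refine le_trans (pow_le_pow_left₀ (by positivity) ?_ k) hX
    calc (N : ℝ) ^ α ≤ (N : ℝ) ^ (1 : ℝ) := Real.rpow_le_rpow_of_exponent_le hN1 hα1.le
      _ = N := Real.rpow_one _
  refine ⟨(Ico T (T + X)).filter (fun M : ℤ => ∃ n ∈ Ioc M (M + N), (N : ℝ) ^ ε < mult (near α N) a n), h6.trans ?_, ?_⟩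
  · have e1 : (6 / (N : ℝ) ^ ε) ^ k = 6 ^ k * (N : ℝ) ^ (-(ε * k)) := by
      rw [div_pow, ← Real.rpow_natCast ((N : ℝ) ^ ε), ← Real.rpow_mul hN0.le, Real.rpow_neg hN0.le]
      field_simp
    rw [e1]
    have h7 : (N : ℝ) * (6 ^ k * (N : ℝ) ^ (-(ε * k))) * (X + N + ((N : ℝ) ^ α) ^ k) ≤
        (N : ℝ) * (6 ^ k * (N : ℝ) ^ (-(ε * k))) * (3 * X) :=
      mul_le_mul_of_nonneg_left (by linarith) (by positivity)
    refine h7.trans ?_
    have h8 : (N : ℝ) ^ (-(ε * k)) ≤ (N : ℝ) ^ (-B - 2) := Real.rpow_le_rpow_of_exponent_le hN1 (by linarith)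
    have h9 : (N : ℝ) ^ (-B - 2) = (N : ℝ) ^ (-B) * ((N : ℝ) ^ 2)⁻¹ := by
      rw [sub_eq_add_neg, Real.rpow_add hN0, Real.rpow_neg hN0.le 2]
      norm_cast
    calc (N : ℝ) * (6 ^ k * (N : ℝ) ^ (-(ε * k))) * (3 * X)
        ≤ (N : ℝ) * (6 ^ k * ((N : ℝ) ^ (-B) * ((N : ℝ) ^ 2)⁻¹)) * (3 * X) := by
          rw [← h9]; gcongr
      _ = (3 * 6 ^ k) * ((X : ℝ) * (N : ℝ) ^ (-B)) / N := by field_simp
      _ ≤ N * ((X : ℝ) * (N : ℝ) ^ (-B)) / N := by gcongr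
      _ = X * (N : ℝ) ^ (-B) := by field_simp
  · intro M hM hME
    have h7 : ∀ n ∈ Ioc M (M + N), (mult (near α N) a n : ℝ) ≤ (N : ℝ) ^ ε := by
      intro n hn
      by_contra h8
      exact hME (mem_filter.2 ⟨hM, n, hn, not_le.1 h8⟩)
    refine ⟨h7, fun Q hQ => ?_⟩
    have h8 := all_sets Q (near α N) hQ a ((N : ℝ) ^ α) (by positivity) N h4 (fun p hp => mem_near hp) M ((N : ℝ) ^ ε) hW0 h7
    refine le_trans (le_of_eq ?_) h8
    rw [div_rp α N (by exact_mod_cast hN1), Real.rpow_sub hN0]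
    field_simp

lemma part4 (α : ℝ) (hα : 0 < α) (hα1 : α < 1) :
    ∃ N₀ : ℕ, ∀ N : ℕ, N₀ ≤ N →
      1 / 8 * (N / Real.log N) ≤ ∑ p ∈ near α N, (N : ℝ) / p ∧
      ∀ (a : ℕ → ℤ) (T : ℤ) (X : ℕ), N ≤ X → (N : ℝ) ^ (2 * α) ≤ X → ∀ δ : ℝ, 0 < δ →
        (((Ico T (T + X)).filter (fun M : ℤ => δ * (N / Real.log N) <
          |(cov (near α N) a M N : ℝ) - ∑ p ∈ near α N, (N : ℝ) / p|)).card : ℝ) ≤
          48 / α ^ 2 / (δ * Real.log N) * X := by
  classical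
  obtain ⟨N₁, h1⟩ := near_low α hα hα1
  obtain ⟨N₂, h2⟩ := near_up α hα
  have hη : 0 < (1 - α) / 4 := by linarith
  obtain ⟨N₃, h3⟩ := Filter.eventually_atTop.1 ((ev_log ((1 - α) / 4) 1 hη one_pos).and
    (ev_rpow ((1 - α) / 2) (6 * α ^ 2 / 48) (by linarith)))
  refine ⟨N₁ + N₂ + N₃ + 3, fun N hN => ?_⟩
  have hN3 : (3 : ℝ) ≤ N := by exact_mod_cast (by omega : 3 ≤ N)
  have hN0 : (0 : ℝ) < N := by linarith
  have hN1 : (1 : ℝ) ≤ N := by linarith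
  set L := Real.log N with hL
  have hL0 : 0 < L := Real.log_pos (by linarith)
  set Y : ℝ := (N : ℝ) ^ α with hY
  have hY0 : 0 < Y := by positivity
  have hY1 : 1 ≤ Y := Real.one_le_rpow hN1 hα.le
  have hlow := h1 N (by omega)
  have hup := h2 N (by omega)
  obtain ⟨h4, h5⟩ := h3 N (by omega)
  constructor
  · have h6 : ∀ p ∈ near α N, (N : ℝ) / (2 * Y) ≤ N / p := by
      intro p hp
      have h7 := mem_near hp
      have hp0 : (0 : ℝ) < p := lt_of_lt_of_le hY0 h7.2.1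
      exact div_le_div_of_nonneg_left hN0.le hp0 h7.2.2.le
    have h7 := sum_le_sum h6
    rw [sum_const, nsmul_eq_mul] at h7
    refine le_trans ?_ h7
    calc 1 / 8 * (N / L) = Y / (4 * L) * (N / (2 * Y)) := by field_simp; norm_num
      _ ≤ _ := mul_le_mul_of_nonneg_right hlow (by positivity)
  · intro a T X hNX hX δ hδ
    have hNX' : (N : ℝ) ≤ X := by exact_mod_cast hNX
    have hX' : Y ^ 2 ≤ X := by
      refine le_trans (le_of_eq ?_) hX
      rw [hY, ← Real.rpow_natCast, ← Real.rpow_mul hN0.le]; push_cast; ring_nf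
    set A := (Ico T (T + X)).filter (fun M : ℤ => δ * (N / L) <
          |(cov (near α N) a M N : ℝ) - ∑ p ∈ near α N, (N : ℝ) / p|) with hA
    rcases le_or_gt (δ * L) (48 / α ^ 2) with hc | hc
    · have h6 : (A.card : ℝ) ≤ X := by
        have h7 : A.card ≤ (Ico T (T + X)).card := card_le_card (filter_subset _ _)
        rw [Int.card_Ico] at h7
        have h8 : (T + (X : ℤ) - T).toNat = X := by
          rw [add_sub_cancel_left]; exact Int.toNat_natCast X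
        rw [h8] at h7
        exact_mod_cast h7
      have h7 : 1 ≤ 48 / α ^ 2 / (δ * L) := by rw [le_div_iff₀ (by positivity)]; linarith
      have h8 : (0 : ℝ) ≤ X := Nat.cast_nonneg _
      nlinarith
    · -- the number of primes is negligible
      have hQ3 : ((near α N).card : ℝ) ≤ 3 * Y := card_Q _ Y hY1 fun p hp => (mem_near hp).2.2
      have h6 : 3 * Y ≤ δ * (N / L) / 2 := by
        have h7 : L ^ 2 ≤ (N : ℝ) ^ ((1 - α) / 2) := by
          have h8 : L ≤ (N : ℝ) ^ ((1 - α) / 4) := by linarith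
          calc L ^ 2 ≤ ((N : ℝ) ^ ((1 - α) / 4)) ^ 2 := pow_le_pow_left₀ hL0.le h8 2
            _ = (N : ℝ) ^ ((1 - α) / 2) := by
              rw [← Real.rpow_natCast, ← Real.rpow_mul hN0.le]; congr 1; push_cast; ring
        have h8 : 6 * α ^ 2 / 48 * L ^ 2 ≤ (N : ℝ) ^ (1 - α) := by
          calc 6 * α ^ 2 / 48 * L ^ 2 ≤ (N : ℝ) ^ ((1 - α) / 2) * (N : ℝ) ^ ((1 - α) / 2) :=
                mul_le_mul h5 h7 (by positivity) (by positivity)
            _ = (N : ℝ) ^ (1 - α) := by rw [← Real.rpow_add hN0]; congr 1; ring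
        have h9 : 6 * α ^ 2 / 48 * L ^ 2 * Y ≤ N := by
          calc 6 * α ^ 2 / 48 * L ^ 2 * Y ≤ (N : ℝ) ^ (1 - α) * Y := mul_le_mul_of_nonneg_right h8 hY0.le
            _ = N := by rw [hY, ← Real.rpow_add hN0]; simp
        have h10 : 6 * Y * L ≤ δ * N := by
          have h11 : 48 / α ^ 2 * (6 * α ^ 2 / 48 * L ^ 2 * Y) ≤ 48 / α ^ 2 * N :=
            mul_le_mul_of_nonneg_left h9 (by positivity)
          have e1 : 48 / α ^ 2 * (6 * α ^ 2 / 48 * L ^ 2 * Y) = 6 * Y * L * L := by field_simp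
          rw [e1] at h11
          have h12 : 48 / α ^ 2 * N ≤ δ * L * N := mul_le_mul_of_nonneg_right hc.le hN0.le
          have h13 : 6 * Y * L * L ≤ δ * N * L := by linarith
          exact le_of_mul_le_mul_right h13 hL0
        rw [le_div_iff₀ (by norm_num), ← mul_div_assoc, le_div_iff₀ hL0]
        linarith
      have h7 : ∀ M ∈ A, δ * (N / L) / 2 ≤ ∑ n ∈ Ioc M (M + N), ((mult (near α N) a n).choose 2 : ℝ) := by
        intro M hM
        have h8 := (mem_filter.1 hM).2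
        have h9 := asym (near α N) a (fun p hp => (mem_near hp).1) M N
        linarith
      have h8 : (A.card : ℝ) * (δ * (N / L) / 2) ≤
          N * (((near α N).card : ℝ) ^ 2 / (2 : ℕ).factorial * ((X + N : ℕ) / Y ^ 2 + 1)) := by
        calc (A.card : ℝ) * (δ * (N / L) / 2) = ∑ M ∈ A, δ * (N / L) / 2 := by rw [sum_const, nsmul_eq_mul]
          _ ≤ ∑ M ∈ A, ∑ n ∈ Ioc M (M + N), ((mult (near α N) a n).choose 2 : ℝ) := sum_le_sum h7
          _ ≤ _ := by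
            refine (windows_sum (fun n => ((mult (near α N) a n).choose 2 : ℝ)) (fun _ => Nat.cast_nonneg _) T X N A
              (filter_subset _ _)).trans ?_
            exact mul_le_mul_of_nonneg_left (choose_bound (near α N) a Y hY0
              (fun p hp => ⟨(mem_near hp).1, (mem_near hp).2.1⟩) 2 T (X + N)) hN0.le
      have h9 : ((X + N : ℕ) : ℝ) / Y ^ 2 + 1 ≤ 3 * X / Y ^ 2 := by
        rw [div_add_one (by positivity)]
        refine div_le_div_of_nonneg_right ?_ (by positivity)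
        push_cast; linarith
      have h10 : ((near α N).card : ℝ) ^ 2 ≤ (4 / α * (Y / L)) ^ 2 := pow_le_pow_left₀ (Nat.cast_nonneg _) hup 2
      have h11 : (A.card : ℝ) * (δ * (N / L) / 2) ≤ N * ((4 / α * (Y / L)) ^ 2 / 2 * (3 * X / Y ^ 2)) := by
        refine h8.trans ?_
        have h12 : ((2 : ℕ).factorial : ℝ) = 2 := by norm_num [Nat.factorial]
        rw [h12]
        gcongr
      have h12 : (A.card : ℝ) ≤ N * ((4 / α * (Y / L)) ^ 2 / 2 * (3 * X / Y ^ 2)) / (δ * (N / L) / 2) := by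
        rwa [le_div_iff₀ (by positivity)]
      refine h12.trans (le_of_eq ?_)
      field_simp
      ring

/-- **Every choice of residues is good on almost every interval.** Let `0 < α < 1`.

(1) For all `k ≥ 2`, all `N` with `4 N ^ α ≤ N`, EVERY set `Q` of primes near `N ^ α`, EVERY choice `a`, all `T`, `X` and
all `V > 0` with `16 k V ≤ |Q| N ^ (1 - α)`: among the `X` intervals `(M, M + N]`, `T ≤ M < T + X`, there are at most
`2 · 8 ^ k (V / N) ^ (k - 1) (X + N + N ^ (k α))` in which at most `V` integers are covered.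

(2) For all `k ≥ 2` and `ε > 0`, all large `N`, every choice `a` and all `X ≥ N`, `X ≥ N ^ (k α)`: the bound `N ^ (1 - ε)` for
the number of the covered integers fails for at most `6 · 8 ^ k N ^ (- (k - 1) ε) X` of the `X` intervals.

(3) For all `ε > 0` and `B` there is `K` such that for all large `N`, every choice and all `X ≥ N ^ K`, for all but
`X N ^ (- B)` of the intervals: no integer of the interval lies in more than `N ^ ε` of the classes, and EVERY set `Q` of primes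
near `N ^ α` covers at least `|Q| N ^ (1 - α - ε) / 4` integers of the interval.

(4) For all large `N`, every choice, all `X ≥ N`, `X ≥ N ^ (2 α)` and all `δ > 0`: for all but `48 / (α² δ log N) · X` of the
intervals the number of the covered integers differs from `∑ N / p` (the sum over the primes near `N ^ α`, which is at least
`N / (8 log N)`) by at most `δ N / log N`. -/
theorem result (α : ℝ) (hα : 0 < α) (hα1 : α < 1) :
    (∀ k N : ℕ, 2 ≤ k → 1 ≤ N → 4 * (N : ℝ) ^ α ≤ N → ∀ Q ⊆ primesNear α N, ∀ (a : ℕ → ℤ) (T : ℤ) (X : ℕ) (V : ℝ),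
      0 < V → 16 * k * V ≤ Q.card * (N : ℝ) ^ (1 - α) →
      (((Ico T (T + X)).filter (fun M : ℤ => (covered Q a M N : ℝ) ≤ V)).card : ℝ) ≤
        2 * 8 ^ k * (V / N) ^ (k - 1) * (X + N + (N : ℝ) ^ (k * α))) ∧
    (∀ (k : ℕ) (ε : ℝ), 2 ≤ k → 0 < ε → ∃ N₀ : ℕ, ∀ N : ℕ, N₀ ≤ N → ∀ (a : ℕ → ℤ) (T : ℤ) (X : ℕ),
      N ≤ X → (N : ℝ) ^ (k * α) ≤ X →
      (((Ico T (T + X)).filter (fun M : ℤ => (covered (primesNear α N) a M N : ℝ) ≤ (N : ℝ) ^ (1 - ε))).card : ℝ) ≤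
        6 * 8 ^ k * (N : ℝ) ^ (-((k - 1 : ℝ) * ε)) * X) ∧
    (∀ ε B : ℝ, 0 < ε → ∃ K N₀ : ℕ, ∀ N : ℕ, N₀ ≤ N → ∀ (a : ℕ → ℤ) (T : ℤ) (X : ℕ), (N : ℝ) ^ K ≤ X →
      ∃ E : Finset ℤ, (E.card : ℝ) ≤ X * (N : ℝ) ^ (-B) ∧ ∀ M ∈ Ico T (T + X), M ∉ E →
        (∀ n ∈ Ioc M (M + N), (multiplicity (primesNear α N) a n : ℝ) ≤ (N : ℝ) ^ ε) ∧
        ∀ Q ⊆ primesNear α N, (Q.card : ℝ) * (N : ℝ) ^ (1 - α - ε) / 4 ≤ covered Q a M N) ∧
    (∃ N₀ : ℕ, ∀ N : ℕ, N₀ ≤ N →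
      1 / 8 * (N / Real.log N) ≤ ∑ p ∈ primesNear α N, (N : ℝ) / p ∧
      ∀ (a : ℕ → ℤ) (T : ℤ) (X : ℕ), N ≤ X → (N : ℝ) ^ (2 * α) ≤ X → ∀ δ : ℝ, 0 < δ →
        (((Ico T (T + X)).filter (fun M : ℤ => δ * (N / Real.log N) <
          |(covered (primesNear α N) a M N : ℝ) - ∑ p ∈ primesNear α N, (N : ℝ) / p|)).card : ℝ) ≤
          48 / α ^ 2 / (δ * Real.log N) * X) :=
  ⟨fun k N hk hN1 hN Q hQ a T X V hV h => part1 α k N hk hN hN1 Q hQ a T X V hV h,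
    fun k ε hk hε => part2 α hα hα1 k ε hk hε, fun ε B hε => part3 α hα hα1 ε B hε, part4 α hα hα1⟩

end Pool.Agent.Results.MP_bb5cc8_nt.AlmostEveryInterval
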