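import Pool.Agent.U350.DL.Core
import Pool.Agent.R416.CV.Asym

/-!
# Covering `[1, N]` by one residue class for each prime near `N^α`: dilations of a choice

For a choice `a` of one residue class `a(p)` modulo each prime `N^α ≤ p < 2 N^α`, `1/2 < α < 1`, and an
integer `m ≥ 1` let `m a` be the choice of the classes `m a(p)`. For EVERY choice `a`, almost all of the
choices `m a`, `1 ≤ m ≤ M`, cover `N^(1-o(1))` and even a constant times `N / log N` integers of `[1, N]`, as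
soon as `M ≥ N^(2α-1)`. The proof counts the points `(m, n)` of a box by their number of classes: the points
with `n ≡ m a(p)` and `n ≡ m a(q)` form a lattice of determinant `p q`, which contains few primitive vectors
of a box, and multiples of a primitive vector lie in the same classes.
-/

set_option autoImplicit false

namespace Pool.Agent.Results.MP_bb5cc8_nt.Dilations

open Finset Filter Topology

/-- `p` is a prime with `N^α ≤ p < 2 N^α`. -/
def InRange (α : ℝ) (N p : ℕ) : Prop :=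
  p.Prime ∧ (N : ℝ) ^ α ≤ (p : ℝ) ∧ (p : ℝ) < 2 * (N : ℝ) ^ α

/-- The number `S_a(N)` of integers `1 ≤ n ≤ N` lying in the chosen class `a p` modulo `p` for at least one
prime `p` with `N^α ≤ p < 2 N^α`. (Only the values of `a` at these primes matter.) -/
noncomputable def coveredCount (α : ℝ) (N : ℕ) (a : (p : ℕ) → ZMod p) : ℕ :=
  Set.ncard {n : ℕ | 1 ≤ n ∧ n ≤ N ∧ ∃ p : ℕ, InRange α N p ∧ (n : ZMod p) = a p}

/-- the choice of the classes `m a(p)` -/
def dilate (m : ℕ) (a : (p : ℕ) → ZMod p) : (p : ℕ) → ZMod p := fun p => (m : ZMod p) * a p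

/-- the number of the integers `1 ≤ m ≤ M` for which the choice `m a` covers at most `V` integers of `[1, N]` -/
noncomputable def numBad (α : ℝ) (N : ℕ) (a : (p : ℕ) → ZMod p) (M : ℕ) (V : ℝ) : ℕ :=
  Set.ncard {m : ℕ | 1 ≤ m ∧ m ≤ M ∧ (coveredCount α N (dilate m a) : ℝ) ≤ V}

theorem covered_eq (α : ℝ) (N m : ℕ) (a : (p : ℕ) → ZMod p) :
    coveredCount α N (dilate m a) = (Pool.Agent.U350.DL.cov (Pool.Agent.H170R2.PC.PD α N) a m N).card := by
  rw [coveredCount, ← Set.ncard_coe_finset]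
  congr 1
  ext n
  rw [Set.mem_ofPred_eq, mem_coe, Pool.Agent.U350.DL.cov, mem_filter, mem_Icc, Pool.Agent.U350.DL.hit]
  constructor
  · rintro ⟨h1, h2, p, h3, h4⟩
    refine ⟨⟨h1, h2⟩, p, ?_⟩
    rw [mem_filter]
    exact ⟨Pool.Agent.H170R2.PC.mem_PD.2 h3, h4⟩
  · rintro ⟨⟨h1, h2⟩, p, hp⟩
    rw [mem_filter] at hp
    exact ⟨h1, h2, p, Pool.Agent.H170R2.PC.mem_PD.1 hp.1, hp.2⟩

theorem bad_eq (α : ℝ) (N : ℕ) (a : (p : ℕ) → ZMod p) (M : ℕ) (V : ℝ) :
    numBad α N a M V = ((Icc 1 M).filter (fun m =>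
      ((Pool.Agent.U350.DL.cov (Pool.Agent.H170R2.PC.PD α N) a m N).card : ℝ) ≤ V)).card := by
  classical
  rw [numBad, ← Set.ncard_coe_finset]
  congr 1
  ext m
  rw [Set.mem_ofPred_eq, mem_coe, mem_filter, mem_Icc, covered_eq]
  tauto

theorem numeric {b π L x N M V ℓ R : ℝ} (hN0 : 0 < N) (hM1 : 1 ≤ M) (hx0 : 0 < x) (hL4 : 4 ≤ L)
    (hxL : x * L = N) (hπ0 : 0 < π) (e3 : x ≤ 4 * (π * ℓ)) (hℓ1 : 1 ≤ ℓ) (e2 : R * N = x ^ 2) (hR0 : 0 < R)
    (hV0 : 0 ≤ V) (hb0 : 0 ≤ b)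
    (hcore : (b * π * L) ^ 2 ≤
      2112 * (M * V) * (π * (2 + 2 * (M * N) / x) + π ^ 2 * (2 + 2 * (M * N) / x ^ 2))) :
    b ≤ M * (195 * √(V / N * (ℓ + R / M))) := by
  have hM0 : 0 < M := by linarith
  have hL0 : 0 < L := by linarith
  have hML : 4 ≤ M * L := by nlinarith
  have e1 : 2 + 2 * (M * N) / x ≤ 4 * (M * L) := by
    have : 2 * (M * N) / x = 2 * (M * L) := by rw [← hxL]; field_simp
    rw [this]; linarith
  have e4 : π ^ 2 * (2 + 2 * (M * N) / x ^ 2) = π ^ 2 * L ^ 2 * ((2 * R + 2 * M) / N) := by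
    have hL2 : L ^ 2 = N ^ 2 / x ^ 2 := by rw [← hxL]; field_simp
    rw [hL2, ← e2]
    field_simp
  have e5 : π * (2 + 2 * (M * N) / x) ≤ π ^ 2 * L ^ 2 * (16 * M * ℓ / N) := by
    calc π * (2 + 2 * (M * N) / x) ≤ π * (4 * (M * L)) := mul_le_mul_of_nonneg_left e1 hπ0.le
      _ = (4 * π * M * L / N) * N := by field_simp
      _ = (4 * π * M * L / N) * (x * L) := by rw [hxL]
      _ ≤ (4 * π * M * L / N) * (4 * (π * ℓ) * L) := by
          apply mul_le_mul_of_nonneg_left _ (by positivity)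
          exact mul_le_mul_of_nonneg_right e3 hL0.le
      _ = π ^ 2 * L ^ 2 * (16 * M * ℓ / N) := by ring
  have hMl : M ≤ M * ℓ := by nlinarith
  have e6 : (b * π * L) ^ 2 ≤ (π ^ 2 * L ^ 2) * (38016 * (M * V) * ((M * ℓ + R) / N)) := by
    calc (b * π * L) ^ 2 ≤ 2112 * (M * V) * (π * (2 + 2 * (M * N) / x) + π ^ 2 * (2 + 2 * (M * N) / x ^ 2)) := hcore
      _ ≤ 2112 * (M * V) * (π ^ 2 * L ^ 2 * (16 * M * ℓ / N) + π ^ 2 * L ^ 2 * ((2 * R + 2 * M) / N)) := by
          apply mul_le_mul_of_nonneg_left _ (by positivity)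
          rw [e4]; linarith
      _ ≤ 2112 * (M * V) * (π ^ 2 * L ^ 2 * (18 * (M * ℓ + R) / N)) := by
          apply mul_le_mul_of_nonneg_left _ (by positivity)
          rw [← mul_add]
          apply mul_le_mul_of_nonneg_left _ (by positivity)
          rw [← add_div]
          apply div_le_div_of_nonneg_right _ hN0.le
          linarith
      _ = _ := by ring
  have e7 : b ^ 2 ≤ 38016 * (M * V) * ((M * ℓ + R) / N) := by
    have h2 : (b * π * L) ^ 2 = (π ^ 2 * L ^ 2) * b ^ 2 := by ring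
    rw [h2] at e6
    exact le_of_mul_le_mul_left e6 (by positivity)
  apply le_of_sq_le_sq _ (by positivity)
  have h2 : (M * (195 * √(V / N * (ℓ + R / M)))) ^ 2 = M ^ 2 * (38025 * (V / N * (ℓ + R / M))) := by
    rw [mul_pow, mul_pow, Real.sq_sqrt (by positivity)]; norm_num
  have h3 : M ^ 2 * (38025 * (V / N * (ℓ + R / M))) = 38025 * ((M * V) * ((M * ℓ + R) / N)) := by
    field_simp
  rw [h2, h3]
  have h4 : 0 ≤ (M * V) * ((M * ℓ + R) / N) := by positivity
  rw [mul_assoc] at e7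
  linarith

theorem main {α : ℝ} (h0 : 1 / 2 < α) (h1 : α < 1) : ∀ᶠ N : ℕ in atTop,
    ∀ (a : (p : ℕ) → ZMod p) (M : ℕ) (V : ℝ), 1 ≤ M → (M : ℝ) < (N : ℝ) ^ α →
      (numBad α N a M V : ℝ) ≤ M * (16 * (1 + Real.log N) * (N : ℝ) ^ (α - 1) +
        195 * √(V / N * (Real.log N + (N : ℝ) ^ (2 * α - 1) / M))) := by
  filter_upwards [Pool.Agent.R416.CV.ev_primes (by linarith : 0 < α) h1,
    Pool.Agent.H170R2.PC.ev_const 4 (show 0 < 1 - α by linarith), eventually_ge_atTop 3] with N hpr hL4 hN3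
  intro a M V hM hMx
  have hN0 : (0 : ℝ) < N := by exact_mod_cast (by omega : 0 < N)
  have hM0 : (0 : ℝ) < M := by exact_mod_cast hM
  have hM1 : (1 : ℝ) ≤ M := by exact_mod_cast hM
  set x : ℝ := (N : ℝ) ^ α with hx
  have hx0 : 0 < x := by positivity
  set ℓ : ℝ := Real.log N with hℓ
  have hℓ1 : 1 ≤ ℓ := by
    rw [hℓ, Real.le_log_iff_exp_le hN0]
    have h2 := Real.exp_one_lt_d9
    have h3 : (3 : ℝ) ≤ N := by exact_mod_cast hN3
    linarith
  set L : ℝ := (N : ℝ) / x with hLdef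
  have hLeq : (N : ℝ) ^ (1 - α) = L := by rw [Real.rpow_sub hN0, Real.rpow_one]
  rw [hLeq] at hL4
  have hL0 : 0 < L := by linarith
  have hLinv : (N : ℝ) ^ (α - 1) = 1 / L := by
    rw [← hLeq, one_div, ← Real.rpow_neg hN0.le]; congr 1; ring
  set P := Pool.Agent.H170R2.PC.PD α N with hPdef
  set π : ℝ := (P.card : ℝ) with hπ
  have hπ0 : 0 < π := by
    by_contra h
    have h2 : π * ℓ ≤ 0 := mul_nonpos_of_nonpos_of_nonneg (not_lt.1 h) (by linarith)
    linarith
  rw [bad_eq]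
  set B := (Icc 1 M).filter (fun m => ((Pool.Agent.U350.DL.cov P a m N).card : ℝ) ≤ V) with hB
  have hrhs0 : 0 ≤ M * (16 * (1 + ℓ) * (N : ℝ) ^ (α - 1)) := by positivity
  have hrhs1 : 0 ≤ M * (195 * √(V / N * (ℓ + (N : ℝ) ^ (2 * α - 1) / M))) := by positivity
  rcases B.eq_empty_or_nonempty with hBe | hBne
  · rw [hBe]; simp only [card_empty, Nat.cast_zero]; linarith
  have hV0 : 0 ≤ V := by
    obtain ⟨m, hm⟩ := hBne
    rw [hB, mem_filter] at hm
    exact (Nat.cast_nonneg _).trans hm.2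
  have hlogM : Real.log M ≤ ℓ := by
    apply Real.log_le_log hM0
    have h2 : x ≤ N := by
      rw [hx]
      calc (N : ℝ) ^ α ≤ (N : ℝ) ^ (1 : ℝ) :=
            Real.rpow_le_rpow_of_exponent_le (by exact_mod_cast (by omega : 1 ≤ N)) h1.le
        _ = N := Real.rpow_one _
    linarith
  by_cases hb : 16 * (M * (1 + Real.log M)) ≤ B.card * L
  · have hcore := Pool.Agent.U350.DL.core (P := P) (a := a) (M := M) (N := N) (x := x) (V := V)
      (fun p hp => by
        obtain ⟨g1, g2, g3⟩ := Pool.Agent.H170R2.PC.mem_PD.1 hp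
        refine ⟨g1, ?_, g2, g3⟩
        have : (M : ℝ) < p := lt_of_lt_of_le hMx g2
        exact_mod_cast this) hx0 hM (by omega) hL4 B (filter_subset _ _) hBne
      (fun m hm => by rw [hB, mem_filter] at hm; exact hm.2) hb
    have e2 : (N : ℝ) ^ (2 * α - 1) * N = x ^ 2 := by
      rw [hx, ← Real.rpow_natCast ((N : ℝ) ^ α) 2, ← Real.rpow_mul hN0.le]
      nth_rewrite 2 [← Real.rpow_one (N : ℝ)]
      rw [← Real.rpow_add hN0]
      congr 1; push_cast; ring
    have hxL : x * L = N := by rw [hLdef]; field_simp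
    have e8 := numeric hN0 hM1 hx0 hL4 hxL hπ0 hpr hℓ1 e2 (by positivity) hV0 (Nat.cast_nonneg B.card) hcore
    linarith
  · rw [not_le] at hb
    have h2 : (B.card : ℝ) < 16 * (M * (1 + Real.log M)) / L := by rw [lt_div_iff₀ hL0]; exact hb
    have h3 : 16 * (M * (1 + Real.log M)) / L ≤ M * (16 * (1 + ℓ) * (N : ℝ) ^ (α - 1)) := by
      rw [hLinv]
      have : M * (16 * (1 + ℓ) * (1 / L)) = 16 * (M * (1 + ℓ)) / L := by ring
      rw [this]
      apply div_le_div_of_nonneg_right _ hL0.le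
      have : (M : ℝ) * (1 + Real.log M) ≤ M * (1 + ℓ) := mul_le_mul_of_nonneg_left (by linarith) hM0.le
      linarith
    linarith

theorem ev_log (C : ℝ) {s : ℝ} (hs : 0 < s) (hC : 0 < C) :
    ∀ᶠ N : ℕ in atTop, C * (1 + Real.log N) ≤ (N : ℝ) ^ s := by
  have h1 := (isLittleO_log_rpow_atTop hs).bound (show 0 < 1 / (2 * C) by positivity)
  have h2 := tendsto_natCast_atTop_atTop.eventually h1
  filter_upwards [h2, Pool.Agent.H170R2.PC.ev_const (2 * C) hs, eventually_ge_atTop 1] with N h3 h4 h5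
  have hN0 : (0 : ℝ) < N := by exact_mod_cast h5
  have hl : 0 ≤ Real.log N := Real.log_natCast_nonneg N
  rw [Real.norm_of_nonneg hl, Real.norm_of_nonneg (by positivity)] at h3
  have h6 : C * Real.log N ≤ (N : ℝ) ^ s / 2 := by
    calc C * Real.log N ≤ C * (1 / (2 * C) * (N : ℝ) ^ s) := mul_le_mul_of_nonneg_left h3 hC.le
      _ = _ := by field_simp
  linarith

/-- **Dilations of a choice.** Let `1/2 < α < 1`.
(1) For every `δ > 0` there is `η > 0` such that for all large `N`, every choice `a` and every integer `M`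
with `N^(2α-1) ≤ M < N^α`, all but at most `δ M` of the choices `m a`, `1 ≤ m ≤ M`, cover more than
`η N / log N` integers of `[1, N]`.
(2) For all `ε, κ > 0` with `κ < ε/2` and `κ < 1 - α`, for all large `N`, every `a` and `M` as in (1), at most
`M N^(-κ)` of the choices `m a` cover at most `N^(1-ε)` integers.
(3) For all large `N`, every choice `a`, all `1 ≤ M < N^α` and all real `V`, the number of `1 ≤ m ≤ M` for which
`m a` covers at most `V` integers is at most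
`M (16 (1 + log N) N^(α-1) + 195 ((V/N) (log N + N^(2α-1)/M))^(1/2))`. -/
theorem result (α : ℝ) (h0 : 1 / 2 < α) (h1 : α < 1) :
    (∀ δ : ℝ, 0 < δ → ∃ η : ℝ, 0 < η ∧ ∃ N₀ : ℕ, ∀ N : ℕ, N₀ ≤ N → ∀ (a : (p : ℕ) → ZMod p) (M : ℕ),
      (N : ℝ) ^ (2 * α - 1) ≤ M → (M : ℝ) < (N : ℝ) ^ α →
        (numBad α N a M (η * N / Real.log N) : ℝ) ≤ δ * M) ∧
    (∀ ε κ : ℝ, 0 < κ → κ < ε / 2 → κ < 1 - α → ∃ N₀ : ℕ, ∀ N : ℕ, N₀ ≤ N →
      ∀ (a : (p : ℕ) → ZMod p) (M : ℕ), (N : ℝ) ^ (2 * α - 1) ≤ M → (M : ℝ) < (N : ℝ) ^ α →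
        (numBad α N a M ((N : ℝ) ^ (1 - ε)) : ℝ) ≤ M * (N : ℝ) ^ (-κ)) ∧
    (∃ N₀ : ℕ, ∀ N : ℕ, N₀ ≤ N → ∀ (a : (p : ℕ) → ZMod p) (M : ℕ) (V : ℝ), 1 ≤ M → (M : ℝ) < (N : ℝ) ^ α →
      (numBad α N a M V : ℝ) ≤ M * (16 * (1 + Real.log N) * (N : ℝ) ^ (α - 1) +
        195 * √(V / N * (Real.log N + (N : ℝ) ^ (2 * α - 1) / M)))) := by
  have hmain := main h0 h1
  refine ⟨?_, ?_, ?_⟩
  · intro δ hδ
    refine ⟨δ ^ 2 / 304200, by positivity, ?_⟩
    rw [← eventually_atTop (p := fun N : ℕ => ∀ (a : (p : ℕ) → ZMod p) (M : ℕ),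
      (N : ℝ) ^ (2 * α - 1) ≤ M → (M : ℝ) < (N : ℝ) ^ α →
        (numBad α N a M (δ ^ 2 / 304200 * N / Real.log N) : ℝ) ≤ δ * M)]
    filter_upwards [hmain, ev_log (32 / δ) (show 0 < 1 - α by linarith) (by positivity),
      eventually_ge_atTop 3] with N hN hlog hN3
    intro a M hM1 hM2
    have hN0 : (0 : ℝ) < N := by exact_mod_cast (by omega : 0 < N)
    have hM0 : (0 : ℝ) < M := lt_of_lt_of_le (by positivity) hM1
    have hM : 1 ≤ M := by
      have : 0 < M := by exact_mod_cast hM0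
      omega
    have hℓ1 : 1 ≤ Real.log N := by
      rw [Real.le_log_iff_exp_le hN0]
      have h2 := Real.exp_one_lt_d9
      have h3 : (3 : ℝ) ≤ N := by exact_mod_cast hN3
      linarith
    refine (hN a M _ hM hM2).trans ?_
    have h2 : 16 * (1 + Real.log N) * (N : ℝ) ^ (α - 1) ≤ δ / 2 := by
      have h3 : (N : ℝ) ^ (α - 1) = ((N : ℝ) ^ (1 - α))⁻¹ := by
        rw [← Real.rpow_neg hN0.le]; congr 1; ring
      rw [h3, ← div_eq_mul_inv, div_le_iff₀ (by positivity)]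
      have h4 : 16 * (1 + Real.log N) = (δ / 2) * (32 / δ * (1 + Real.log N)) := by field_simp; ring
      rw [h4]
      exact mul_le_mul_of_nonneg_left hlog (by positivity)
    have h3 : 195 * √(δ ^ 2 / 304200 * N / Real.log N / N * (Real.log N + (N : ℝ) ^ (2 * α - 1) / M)) ≤ δ / 2 := by
      have h4 : (N : ℝ) ^ (2 * α - 1) / M ≤ 1 := by rw [div_le_one hM0]; exact hM1
      have h5 : δ ^ 2 / 304200 * N / Real.log N / N * (Real.log N + (N : ℝ) ^ (2 * α - 1) / M) ≤ (δ / 390) ^ 2 := by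
        have e : δ ^ 2 / 304200 * N / Real.log N / N = δ ^ 2 / 304200 / Real.log N := by field_simp
        rw [e]
        have hl0 : 0 < Real.log N := by linarith
        calc δ ^ 2 / 304200 / Real.log N * (Real.log N + (N : ℝ) ^ (2 * α - 1) / M)
            ≤ δ ^ 2 / 304200 / Real.log N * (2 * Real.log N) :=
              mul_le_mul_of_nonneg_left (by linarith) (by positivity)
          _ = (δ / 390) ^ 2 := by field_simp; ring
      calc 195 * √(δ ^ 2 / 304200 * N / Real.log N / N * (Real.log N + (N : ℝ) ^ (2 * α - 1) / M))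
          ≤ 195 * √((δ / 390) ^ 2) := by gcongr
        _ = δ / 2 := by rw [Real.sqrt_sq (by positivity)]; ring
    calc (M : ℝ) * _ ≤ M * (δ / 2 + δ / 2) := mul_le_mul_of_nonneg_left (add_le_add h2 h3) hM0.le
      _ = δ * M := by ring
  · intro ε κ hκ hκε hκα
    set s : ℝ := min (1 - α - κ) (ε / 2 - κ) with hs
    have hs0 : 0 < s := lt_min (by linarith) (by linarith)
    have hs1 : s ≤ 1 - α - κ := min_le_left _ _
    have hs2 : s ≤ ε / 2 - κ := min_le_right _ _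
    rw [← eventually_atTop (p := fun N : ℕ => ∀ (a : (p : ℕ) → ZMod p) (M : ℕ),
      (N : ℝ) ^ (2 * α - 1) ≤ M → (M : ℝ) < (N : ℝ) ^ α →
        (numBad α N a M ((N : ℝ) ^ (1 - ε)) : ℝ) ≤ M * (N : ℝ) ^ (-κ))]
    filter_upwards [hmain, ev_log 390 hs0 (by norm_num), eventually_ge_atTop 3] with N hN hlog hN3
    intro a M hM1 hM2
    have hN0 : (0 : ℝ) < N := by exact_mod_cast (by omega : 0 < N)
    have hN1 : (1 : ℝ) ≤ N := by exact_mod_cast (by omega : 1 ≤ N)
    have hM0 : (0 : ℝ) < M := lt_of_lt_of_le (by positivity) hM1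
    have hM : 1 ≤ M := by
      have : 0 < M := by exact_mod_cast hM0
      omega
    have hℓ0 : 0 ≤ Real.log N := Real.log_natCast_nonneg N
    refine (hN a M _ hM hM2).trans ?_
    apply mul_le_mul_of_nonneg_left _ hM0.le
    have h2 : 16 * (1 + Real.log N) * (N : ℝ) ^ (α - 1) ≤ (N : ℝ) ^ (-κ) / 2 := by
      calc 16 * (1 + Real.log N) * (N : ℝ) ^ (α - 1) ≤ ((N : ℝ) ^ s / 2) * (N : ℝ) ^ (α - 1) := by
            apply mul_le_mul_of_nonneg_right _ (by positivity)
            linarith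
        _ = (N : ℝ) ^ (s + (α - 1)) / 2 := by rw [Real.rpow_add hN0]; ring
        _ ≤ (N : ℝ) ^ (-κ) / 2 := by
            apply div_le_div_of_nonneg_right _ (by norm_num)
            exact Real.rpow_le_rpow_of_exponent_le hN1 (by linarith)
    have h3 : 195 * √((N : ℝ) ^ (1 - ε) / N * (Real.log N + (N : ℝ) ^ (2 * α - 1) / M)) ≤ (N : ℝ) ^ (-κ) / 2 := by
      have h4 : (N : ℝ) ^ (2 * α - 1) / M ≤ 1 := by rw [div_le_one hM0]; exact hM1
      have h5 : (N : ℝ) ^ (1 - ε) / N = (N : ℝ) ^ (-ε) := by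
        rw [div_eq_iff hN0.ne']
        nth_rewrite 3 [← Real.rpow_one (N : ℝ)]
        rw [← Real.rpow_add hN0]; congr 1; ring
      rw [h5]
      have h6 : (N : ℝ) ^ (-ε) * (Real.log N + (N : ℝ) ^ (2 * α - 1) / M) ≤
          ((N : ℝ) ^ (-(ε / 2)) * (1 + Real.log N)) ^ 2 := by
        have e : ((N : ℝ) ^ (-(ε / 2))) ^ 2 = (N : ℝ) ^ (-ε) := by
          rw [← Real.rpow_natCast, ← Real.rpow_mul hN0.le]; congr 1; push_cast; ring
        rw [mul_pow, e]
        apply mul_le_mul_of_nonneg_left _ (by positivity)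
        nlinarith
      calc 195 * √((N : ℝ) ^ (-ε) * (Real.log N + (N : ℝ) ^ (2 * α - 1) / M))
          ≤ 195 * √(((N : ℝ) ^ (-(ε / 2)) * (1 + Real.log N)) ^ 2) := by gcongr
        _ = 195 * (1 + Real.log N) * (N : ℝ) ^ (-(ε / 2)) := by
            rw [Real.sqrt_sq (by positivity)]; ring
        _ ≤ ((N : ℝ) ^ s / 2) * (N : ℝ) ^ (-(ε / 2)) := by
            apply mul_le_mul_of_nonneg_right _ (by positivity)
            linarith
        _ = (N : ℝ) ^ (s + -(ε / 2)) / 2 := by rw [Real.rpow_add hN0]; ring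
        _ ≤ (N : ℝ) ^ (-κ) / 2 := by
            apply div_le_div_of_nonneg_right _ (by norm_num)
            exact Real.rpow_le_rpow_of_exponent_le hN1 (by linarith)
    linarith
  · exact eventually_atTop.1 hmain

end Pool.Agent.Results.MP_bb5cc8_nt.Dilations
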