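import Pool.Agent.U148.CV.Asym
import Pool.Agent.Results.MP_bb5cc8_nt.ChainExponents

/-!
# Covering `[1, N]` by one residue class for each prime near `N^α`: exponents for `3/4 ≤ α < 1`

`coveredCount α N a` is the number `S_a(N)` of integers of `[1, N]` in a chosen class modulo some
prime `N^α ≤ p < 2 N^α`, and `LowerExponent α c` says `S_a(N) ≥ N^{c - o(1)}` uniformly in the
choice `a` (definitions in `Pool/Agent/H170R2/PC/Defs.lean`).

The proof combines the two earlier ideas (pairs of meeting classes, and the sums-differences
inequality) in a new way.  Let `S` be the set of covered integers and `n` its size.  Take the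
triples `(A, d, d')` where `A` lies in the middle part of `[1, N]` and `d, d'` are small multiples
of primes whose chosen classes contain `A`; there are at least `N^{4 - 2α - o(1)} / n` of them.
Call a triple unclean if `A + d'` is congruent to another element of `S` modulo the prime of `d`.
Two different primes have product at least `N`, and this gives at most `4 n² N^{1 - α}` unclean
triples.  For fixed integers `X, Y` put `P = A + X d + Y d'`.  A clean triple is determined by `P`
and the element `A + Y d'` of `S`, hence also by `P` and `d`.  For suitable small `m` the point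
`A + m d` belongs to the set `Z_m(P)` of the elements `z` of `S` such that
`(X z - m P) / (X - m)` belongs to `S`, and these sets have together at most `n²` elements for
each `m`.  So the sums-differences inequality with exponent `c` bounds the number of the clean
triples with a given `P` by `min (n, (max_m |Z_m(P)|) ^ c)`, and the number of all clean triples
by a constant times `n ^ (3 - 1 / c)`.
-/

namespace Pool.Agent.Results.MP_bb5cc8_nt.HybridExponent

open Pool.Agent.H170R2.PC Pool.Agent.W904.AK Pool.Agent.W814.BB
open Pool.Agent.Results.MP_bb5cc8_nt.FlagSumsDifferences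
open Pool.Agent.Results.MP_bb5cc8_nt.ChainExponents

/-- The new lower exponent `2 c (2 - α) / (4 c - 1)` with `c = 1.669587`. -/
noncomputable def hyb (α : ℝ) : ℝ := (3339174 / 5678348) * (2 - α)

/-- New lower exponents for `3/4 ≤ α < 1`.  For `0.787 ≤ α ≤ 0.941` they are larger than all the
earlier exponents, which are `expo α`, `newExpo α`, `min (1 - α/3) (3/2 - α)`, `1 - 3α/7`,
`1 - 5α/11` and the reciprocal energy exponents. -/
theorem result :
    (∀ α : ℝ, 3 / 4 ≤ α → α < 1 → LowerExponent α (hyb α)) ∧
    (∀ α : ℝ, 787 / 1000 ≤ α → α ≤ 941 / 1000 →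
      expo α < hyb α ∧ newExpo α < hyb α ∧
      min (1 - α / 3) (3 / 2 - α) < hyb α ∧ 1 - 3 * α / 7 < hyb α ∧
      1 - 5 * α / 11 < hyb α ∧
      ∀ h : ℕ, 1 ≤ h → min ((3 - 2 * α - (1 - α) / h) / 2)
        (2 - 2 * α + (2 * α - 1) / (2 * h)) < hyb α) := by
  refine ⟨fun α h1 h2 => ?_, ?_⟩
  · obtain ⟨ms, h0, hpos, hSB⟩ := sliceBound_of_SDc (c := 1669587 / 1000000) (by norm_num)
      Pool.Agent.TH404.AK.sdc3
    have h := Pool.Agent.U148.CV.exp_hybrid (c := 1669587 / 1000000) (by norm_num) h0 hpos hSB
      (α := α) (by linarith) h2
    have e : min (1 - α / 3)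
        (2 * (1669587 / 1000000) * (2 - α) / (4 * (1669587 / 1000000) - 1)) = hyb α := by
      unfold hyb
      have e1 : 2 * (1669587 / 1000000) * (2 - α) / (4 * (1669587 / 1000000) - 1) =
          (3339174 / 5678348) * (2 - α) := by ring
      rw [e1]
      apply min_eq_right
      linarith
    rwa [e] at h
  intro α h1 h2
  have hh : hyb α = (3339174 / 5678348) * (2 - α) := rfl
  have k1 : 3 / 2 - α < hyb α := by rw [hh]; linarith
  have k2 : 1 - α + α / (1669587 / 1000000) < hyb α := by
    rw [hh]
    have : α / (1669587 / 1000000) = α * (1000000 / 1669587) := by ring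
    rw [this]
    linarith
  have k3 : 1 - α + α / (167108 / 100000) < hyb α := by
    rw [hh]
    have : α / (167108 / 100000) = α * (100000 / 167108) := by ring
    rw [this]
    linarith
  refine ⟨?_, ?_, ?_, ?_, ?_, ?_⟩
  · unfold expo
    exact max_lt ((min_le_left _ _).trans_lt k1) k2
  · unfold newExpo expoOf
    exact max_lt ((min_le_left _ _).trans_lt k1) k3
  · exact (min_le_right _ _).trans_lt k1
  · rw [hh]; linarith
  · rw [hh]; linarith
  · intro h hh1
    have hh0 : (1 : ℝ) ≤ h := by exact_mod_cast hh1
    refine (min_le_right _ _).trans_lt (lt_of_le_of_lt ?_ k1)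
    have e : (2 * α - 1) / (2 * h) ≤ (2 * α - 1) / (2 * 1) := by
      apply div_le_div_of_nonneg_left <;> linarith
    linarith

end Pool.Agent.Results.MP_bb5cc8_nt.HybridExponent
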