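import Pool.Agent.H170R2.PC.Asym
import Pool.Agent.U61.SD2.Core

/-!
# Covering `[1, N]` by one residue class for each prime near `N ^ α`: choices with few differences

Let `b p` be integers of absolute value at most `N / 16` in the chosen classes, for the primes `p` of
a set `Q`. If the graph `{(p, b p) : p ∈ Q}` has few differences, and the slopes
`(b p - b q) / (q - p)` are rarely integers of the size `N ^ (1 - α)`, then the classes cover many
integers: `S_a(N)` is at least a constant times `N ^ (1 - α) |Q| ^ 2` divided by the number of the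
differences. So choices with a graph of small doubling cover `N ^ (1 - o(1))` integers. Examples are
the sums `∑ m_i ⌊θ_i p + β_i⌋` of any fixed length.

Proof. The numbers `b p + k p` with `k` of the size `N ^ (1 - α)` are covered. If
`b p + k p = b q + l q` and `v = p - q`, `w = b p - b q`, then `(l - k) q = w + k v`. So for given
`(v, w)` and `k` the prime `q` is a divisor of `w + k v`, a number below `N`, which has at most
`1 / α` prime factors `≥ N ^ α`, unless `l = k`.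
-/

set_option autoImplicit false

open Finset Filter Topology

namespace Pool.Agent.Results.MP_bb5cc8_nt.SmallDifferenceSets

open Pool.Agent.H170R2.PC Pool.Agent.U61.SD2

/-- `b` gives integers of absolute value at most `N / 16` in the chosen classes, for the primes of
`Q`, a set of primes `N ^ α ≤ p < 2 N ^ α`. -/
def Represents (α : ℝ) (N : ℕ) (a : (p : ℕ) → ZMod p) (Q : Finset ℕ) (b : ℕ → ℤ) : Prop :=
  ∀ p ∈ Q, InRange α N p ∧ (b p : ZMod p) = a p ∧ |(b p : ℝ)| ≤ N / 16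

/-- The set of the differences `(p - q, b p - b q)`, `p` and `q` in `Q`. -/
def differences (Q : Finset ℕ) (b : ℕ → ℤ) : Set (ℤ × ℤ) :=
  {x | ∃ p ∈ Q, ∃ q ∈ Q, x = ((p : ℤ) - q, b p - b q)}

/-- The pairs of different elements `p, q` of `Q` for which `(b p - b q) / (q - p)` is an integer `k`
with `N ^ (1 - α) / 16 ≤ k ≤ N ^ (1 - α) / 4`. -/
def parallel (α : ℝ) (N : ℕ) (Q : Finset ℕ) (b : ℕ → ℤ) : Set (ℕ × ℕ) :=
  {x | x.1 ∈ Q ∧ x.2 ∈ Q ∧ x.1 ≠ x.2 ∧ ∃ k : ℕ, (N : ℝ) ^ (1 - α) / 16 ≤ k ∧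
    (k : ℝ) ≤ (N : ℝ) ^ (1 - α) / 4 ∧ b x.1 - b x.2 = (k : ℤ) * ((x.2 : ℤ) - x.1)}

/-- `b` varies by at most `N ^ (1 - α) / 20` per unit on `Q`. -/
def SlowlyVarying (α : ℝ) (N : ℕ) (Q : Finset ℕ) (b : ℕ → ℤ) : Prop :=
  ∀ p ∈ Q, ∀ q ∈ Q, |((b p : ℝ) - b q)| ≤ (N : ℝ) ^ (1 - α) / 20 * |(p : ℝ) - q|

theorem differences_eq (Q : Finset ℕ) (b : ℕ → ℤ) : (differences Q b).ncard = (gdiffs Q b).card := by
  rw [← Set.ncard_coe_finset]
  congr 1
  ext x
  simp only [differences, gdiffs, Set.mem_ofPred_eq, Finset.coe_image, Set.mem_image,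
    Finset.mem_coe, Finset.mem_product, Prod.exists]
  constructor
  · rintro ⟨p, hp, q, hq, rfl⟩
    exact ⟨p, q, ⟨hp, hq⟩, rfl⟩
  · rintro ⟨p, q, ⟨hp, hq⟩, rfl⟩
    exact ⟨p, hp, q, hq, rfl⟩

/-- the general inequality -/
theorem general {α : ℝ} (hα : 0 < α) (hα1 : α < 1) : ∀ᶠ N : ℕ in atTop,
    ∀ (a : (p : ℕ) → ZMod p) (Q : Finset ℕ) (b : ℕ → ℤ), Represents α N a Q b →
      α * (N : ℝ) ^ (1 - α) * (Q.card : ℝ) ^ 2 ≤ 256 * (coveredCount α N a : ℝ) *
        ((differences Q b).ncard + (parallel α N Q b).ncard / (N : ℝ) ^ (1 - α)) := by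
  filter_upwards [ev_const 16 (show (0 : ℝ) < 1 - α by linarith), eventually_ge_atTop 16]
    with N hx16 hN a Q b hb
  have hNR : (16 : ℝ) ≤ N := by exact_mod_cast hN
  have hN0 : (0 : ℝ) < N := by linarith
  have hN1 : (1 : ℝ) < N := by linarith
  set x : ℝ := (N : ℝ) ^ (1 - α) with hx
  set y : ℝ := (N : ℝ) ^ α with hy
  have hy0 : 0 < y := Real.rpow_pos_of_pos hN0 _
  have hxy : x * y = N := by
    rw [hx, hy, ← Real.rpow_add hN0]
    norm_num
  set K : ℕ := ⌊x / 8⌋₊ with hK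
  have hK1 : (K : ℝ) ≤ x / 8 := Nat.floor_le (by linarith)
  have hK2 : x / 8 < K + 1 := Nat.lt_floor_add_one _
  have hK3 : x / 16 ≤ K := by linarith
  have hK0 : (0 : ℝ) < K := by linarith
  have hQ : ∀ q ∈ Q, q.Prime ∧ (N : ℝ) ^ α ≤ q := fun q hq => ⟨(hb q hq).1.1, (hb q hq).1.2.1⟩
  have hrange : ∀ k ∈ Finset.Ioc K (2 * K), x / 8 < k ∧ (k : ℝ) ≤ x / 4 := by
    intro k hk
    rw [Finset.mem_Ioc] at hk
    have h1 : ((K + 1 : ℕ) : ℝ) ≤ k := by exact_mod_cast hk.1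
    have h2 : (k : ℝ) ≤ ((2 * K : ℕ) : ℝ) := by exact_mod_cast hk.2
    push_cast at h1 h2
    constructor <;> linarith
  have hco := coincidences hα hN1 hQ b K (by
    intro p hp q hq k hk
    obtain ⟨⟨-, p1, p2⟩, -, p3⟩ := hb p hp
    obtain ⟨⟨-, q1, q2⟩, -, q3⟩ := hb q hq
    obtain ⟨k1, k2⟩ := hrange k hk
    push_cast
    have e1 : |(k : ℝ) * ((p : ℝ) - q)| ≤ x / 4 * y := by
      rw [abs_mul, abs_of_nonneg (Nat.cast_nonneg k)]
      apply mul_le_mul k2 _ (abs_nonneg _) (by linarith)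
      rw [abs_le]
      constructor <;> linarith
    have e2 : x / 4 * y = N / 4 := by rw [← hxy]; ring
    calc |(b p : ℝ) - b q + (k : ℝ) * ((p : ℝ) - q)| ≤ |(b p : ℝ) - b q| +
          |(k : ℝ) * ((p : ℝ) - q)| := abs_add_le _ _
      _ ≤ (|(b p : ℝ)| + |(b q : ℝ)|) + N / 4 := by
          apply add_le_add (abs_sub _ _)
          rw [← e2]
          exact e1
      _ ≤ N := by linarith)
  -- the covered integers
  set C : Set ℕ := {n : ℕ | 1 ≤ n ∧ n ≤ N ∧ ∃ p : ℕ, InRange α N p ∧ (n : ZMod p) = a p} with hC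
  have hCfin : C.Finite := (Set.finite_Icc 1 N).subset fun n hn => ⟨hn.1, hn.2.1⟩
  set T : Finset ℤ := hCfin.toFinset.image (fun n : ℕ => (n : ℤ)) with hT
  have hTc : T.card ≤ coveredCount α N a := by
    refine Finset.card_image_le.trans (le_of_eq ?_)
    rw [← Set.ncard_eq_toFinset_card C hCfin]
    rfl
  set X := Q ×ˢ Finset.Ioc K (2 * K) with hX
  have hXc : X.card = Q.card * K := by
    rw [hX, Finset.card_product, Nat.card_Ioc]
    congr 1
    omega
  have hf : ∀ z ∈ X, (fun z : ℕ × ℕ => b z.1 + (z.2 : ℤ) * z.1) z ∈ T := by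
    intro z hz
    rw [hX, Finset.mem_product] at hz
    obtain ⟨⟨hp, p1, p2⟩, p4, p3⟩ := hb z.1 hz.1
    obtain ⟨k1, k2⟩ := hrange z.2 hz.2
    rw [abs_le] at p3
    have e1 : N / 8 ≤ (z.2 : ℝ) * z.1 := by
      calc (N : ℝ) / 8 = x / 8 * y := by rw [← hxy]; ring
        _ ≤ (z.2 : ℝ) * z.1 := mul_le_mul k1.le p1 hy0.le (Nat.cast_nonneg _)
    have e2 : (z.2 : ℝ) * z.1 ≤ N / 2 := by
      calc (z.2 : ℝ) * z.1 ≤ x / 4 * (2 * y) :=
            mul_le_mul k2 p2.le (Nat.cast_nonneg _) (by linarith)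
        _ = N / 2 := by rw [← hxy]; ring
    have e3 : (1 : ℝ) ≤ ((b z.1 + (z.2 : ℤ) * z.1 : ℤ) : ℝ) := by
      push_cast
      linarith
    have e4 : ((b z.1 + (z.2 : ℤ) * z.1 : ℤ) : ℝ) ≤ N := by
      push_cast
      linarith
    have e5 : (1 : ℤ) ≤ b z.1 + (z.2 : ℤ) * z.1 := by exact_mod_cast e3
    have e6 : b z.1 + (z.2 : ℤ) * z.1 ≤ N := by exact_mod_cast e4
    rw [hT, Finset.mem_image]
    refine ⟨(b z.1 + (z.2 : ℤ) * z.1).toNat, ?_, ?_⟩
    · rw [Set.Finite.mem_toFinset]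
      refine ⟨by omega, by omega, z.1, ⟨hp, p1, p2⟩, ?_⟩
      have e7 : (((b z.1 + (z.2 : ℤ) * z.1).toNat : ℕ) : ZMod z.1) =
          ((b z.1 + (z.2 : ℤ) * z.1 : ℤ) : ZMod z.1) := by
        rw [← Int.cast_natCast, Int.toNat_of_nonneg (by omega)]
      rw [e7]
      push_cast
      rw [p4, ZMod.natCast_self, mul_zero, add_zero]
    · exact Int.toNat_of_nonneg (by omega)
  have hcs := cs X T (fun z : ℕ × ℕ => b z.1 + (z.2 : ℤ) * z.1) hf
  rw [hXc] at hcs
  set w : ℕ := ((X ×ˢ X).filter (fun z => b z.1.1 + (z.1.2 : ℤ) * z.1.1 =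
    b z.2.1 + (z.2.2 : ℤ) * z.2.1)).card with hw
  have hcs' : ((Q.card : ℝ) * K) ^ 2 ≤ (coveredCount α N a : ℝ) * w := by
    have : (Q.card * K) ^ 2 ≤ coveredCount α N a * w :=
      hcs.trans (Nat.mul_le_mul_right _ hTc)
    exact_mod_cast this
  -- the parallel pairs
  have hlev : ((level Q b K).card : ℝ) ≤ (parallel α N Q b).ncard := by
    have hfin : (parallel α N Q b).Finite := (Q ×ˢ Q).finite_toSet.subset fun z hz =>
      Finset.mem_coe.mpr (Finset.mem_product.mpr ⟨hz.1, hz.2.1⟩)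
    have : (level Q b K).card ≤ (parallel α N Q b).ncard := by
      rw [← Set.ncard_coe_finset]
      apply Set.ncard_le_ncard _ hfin
      intro z hz
      obtain ⟨⟨h1, h2⟩, h3, k, hk, h4⟩ := mem_level.mp (Finset.mem_coe.mp hz)
      obtain ⟨k1, k2⟩ := hrange k hk
      refine ⟨h1, h2, h3, k, by linarith, k2, by linarith⟩
    exact_mod_cast this
  have hDQ : (Q.card : ℝ) ≤ (gdiffs Q b).card := by exact_mod_cast card_le_gdiffs Q b
  rw [differences_eq]
  set S : ℝ := (coveredCount α N a : ℝ) with hS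
  set D : ℝ := ((gdiffs Q b).card : ℝ) with hD
  set M : ℝ := ((parallel α N Q b).ncard : ℝ) with hM
  set q : ℝ := (Q.card : ℝ) with hq
  have hS0 : 0 ≤ S := Nat.cast_nonneg _
  have hM0 : 0 ≤ M := Nat.cast_nonneg _
  have hq0 : 0 ≤ q := Nat.cast_nonneg _
  have hD0 : 0 ≤ D := Nat.cast_nonneg _
  have g1 : α * (w : ℝ) ≤ 2 * D * K + M := by
    have h1 : α * (q * K) ≤ D * K := by
      have : α * q ≤ 1 * D := mul_le_mul hα1.le hDQ hq0 (by norm_num)
      calc α * (q * K) = (α * q) * K := by ring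
        _ ≤ (1 * D) * K := mul_le_mul_of_nonneg_right this hK0.le
        _ = D * K := by ring
    have h2 : α * ((level Q b K).card : ℝ) ≤ 1 * M :=
      mul_le_mul hα1.le hlev (Nat.cast_nonneg _) (by norm_num)
    calc α * (w : ℝ) ≤ _ := hco
      _ ≤ D * K + 1 * M + D * K := by
        apply add_le_add_left
        exact add_le_add h1 h2
      _ = 2 * D * K + M := by ring
  have g2 : α * (q * K) ^ 2 ≤ S * (2 * D * K + M) := by
    calc α * (q * K) ^ 2 ≤ α * (S * w) := mul_le_mul_of_nonneg_left hcs' hα.le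
      _ = S * (α * w) := by ring
      _ ≤ S * (2 * D * K + M) := mul_le_mul_of_nonneg_left g1 hS0
  have g3 : α * q ^ 2 * K ≤ S * (2 * D + M / K) := by
    have e : S * (2 * D + M / K) = S * (2 * D * K + M) / K := by
      field_simp
    rw [e, le_div_iff₀ hK0]
    calc α * q ^ 2 * K * K = α * (q * K) ^ 2 := by ring
      _ ≤ _ := g2
  have hx0 : 0 < x := by linarith
  have g4 : M / K ≤ 16 * (M / x) := by
    rw [div_le_iff₀ hK0]
    calc M = 16 * (M / x) * (x / 16) := by field_simp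
      _ ≤ 16 * (M / x) * K := mul_le_mul_of_nonneg_left hK3 (by positivity)
  calc α * x * q ^ 2 = 16 * (α * q ^ 2 * (x / 16)) := by ring
    _ ≤ 16 * (α * q ^ 2 * K) := by
      apply mul_le_mul_of_nonneg_left _ (by norm_num)
      exact mul_le_mul_of_nonneg_left hK3 (by positivity)
    _ ≤ 16 * (S * (2 * D + M / K)) := mul_le_mul_of_nonneg_left g3 (by norm_num)
    _ ≤ 16 * (S * (2 * D + 16 * (M / x))) := by
      apply mul_le_mul_of_nonneg_left _ (by norm_num)
      apply mul_le_mul_of_nonneg_left _ hS0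
      linarith
    _ ≤ 256 * S * (D + M / x) := by
      have : 0 ≤ S * D := mul_nonneg hS0 hD0
      nlinarith

/-- slowly varying choices have no parallel pairs -/
theorem parallel_empty {α : ℝ} {N : ℕ} (hN : 0 < N) {Q : Finset ℕ} {b : ℕ → ℤ}
    (h : SlowlyVarying α N Q b) : (parallel α N Q b).ncard = 0 := by
  have : parallel α N Q b = ∅ := by
    rw [Set.eq_empty_iff_forall_notMem]
    rintro z ⟨h1, h2, h3, k, h4, h5, h6⟩
    have hx : 0 < (N : ℝ) ^ (1 - α) := Real.rpow_pos_of_pos (by exact_mod_cast hN) _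
    have g := h z.1 h1 z.2 h2
    have e : (b z.1 : ℝ) - b z.2 = (k : ℝ) * ((z.2 : ℝ) - z.1) := by exact_mod_cast h6
    rw [e, abs_mul, abs_of_nonneg (Nat.cast_nonneg k), abs_sub_comm (z.2 : ℝ)] at g
    have hne : 0 < |(z.1 : ℝ) - z.2| := by
      rw [abs_pos, sub_ne_zero]
      exact_mod_cast h3
    have := le_of_mul_le_mul_right g hne
    linarith
  rw [this, Set.ncard_empty]

theorem doubling {α σ τ ε : ℝ} (hα : 0 < α) (hα1 : α < 1) (hε : 0 < ε) : ∀ᶠ N : ℕ in atTop,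
    ∀ (a : (p : ℕ) → ZMod p) (Q : Finset ℕ) (b : ℕ → ℤ), Represents α N a Q b →
      SlowlyVarying α N Q b →
      (N : ℝ) ^ (-σ) * (Set.ncard {p : ℕ | InRange α N p} : ℝ) ≤ (Q.card : ℝ) →
      ((differences Q b).ncard : ℝ) ≤ (N : ℝ) ^ τ * Q.card →
      (N : ℝ) ^ (1 - σ - τ - ε) ≤ (coveredCount α N a : ℝ) := by
  set η : ℝ := min ε 1 / 2 with hη
  have hm : 0 < min ε 1 := lt_min hε one_pos
  have hη0 : 0 < η := by rw [hη]; linarith
  have hη1 : η ≤ 1 := by have := min_le_right ε 1; rw [hη]; linarith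
  have hηε : η < ε := by have := min_le_left ε 1; rw [hη]; linarith
  filter_upwards [general hα hα1, ev_card hα hα1.le hη0 hη1,
    ev_const (256 / α) (show 0 < ε - η by linarith), eventually_ge_atTop 2]
    with N hg hc hk hN a Q b hb hs hQ hD
  have hN0 : (0 : ℝ) < N := by exact_mod_cast (by omega : 0 < N)
  have hPD : (Set.ncard {p : ℕ | InRange α N p} : ℝ) = ((PD α N).card : ℝ) := by
    have : Set.ncard {p : ℕ | InRange α N p} = (PD α N).card := by
      rw [← Set.ncard_coe_finset]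
      congr 1
      ext p
      simp [mem_PD]
    exact_mod_cast this
  have g := hg a Q b hb
  rw [parallel_empty (by omega) hs, Nat.cast_zero, zero_div, add_zero] at g
  rw [hPD] at hQ
  set S : ℝ := (coveredCount α N a : ℝ) with hS
  set q : ℝ := (Q.card : ℝ) with hq
  have hS0 : 0 ≤ S := Nat.cast_nonneg _
  have hql : (N : ℝ) ^ (α - σ - η) ≤ q := by
    refine le_trans ?_ hQ
    calc (N : ℝ) ^ (α - σ - η) = (N : ℝ) ^ (-σ) * (N : ℝ) ^ (α - η) := by
          rw [← Real.rpow_add hN0]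
          congr 1
          ring
      _ ≤ _ := mul_le_mul_of_nonneg_left hc (Real.rpow_nonneg hN0.le _)
  have hq0 : 0 < q := lt_of_lt_of_le (Real.rpow_pos_of_pos hN0 _) hql
  have g1 : α * (N : ℝ) ^ (1 - α) * q ≤ 256 * S * (N : ℝ) ^ τ := by
    have : (α * (N : ℝ) ^ (1 - α) * q) * q ≤ (256 * S * (N : ℝ) ^ τ) * q := by
      calc (α * (N : ℝ) ^ (1 - α) * q) * q = α * (N : ℝ) ^ (1 - α) * q ^ 2 := by ring
        _ ≤ 256 * S * ((differences Q b).ncard : ℝ) := g
        _ ≤ 256 * S * ((N : ℝ) ^ τ * q) := mul_le_mul_of_nonneg_left hD (by positivity)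
        _ = _ := by ring
    exact le_of_mul_le_mul_right this hq0
  have g2 : α * (N : ℝ) ^ (1 - σ - η) ≤ 256 * S * (N : ℝ) ^ τ := by
    refine le_trans ?_ g1
    calc α * (N : ℝ) ^ (1 - σ - η) = α * (N : ℝ) ^ (1 - α) * (N : ℝ) ^ (α - σ - η) := by
          rw [mul_assoc, ← Real.rpow_add hN0]
          congr 2
          ring
      _ ≤ _ := mul_le_mul_of_nonneg_left hql (by positivity)
  rw [div_le_iff₀ hα] at hk
  have hτ : 0 < (N : ℝ) ^ τ := Real.rpow_pos_of_pos hN0 _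
  have g3 : 256 * ((N : ℝ) ^ (1 - σ - τ - ε) * (N : ℝ) ^ τ) ≤ 256 * (S * (N : ℝ) ^ τ) := by
    calc 256 * ((N : ℝ) ^ (1 - σ - τ - ε) * (N : ℝ) ^ τ) = 256 * (N : ℝ) ^ (1 - σ - ε) := by
          rw [← Real.rpow_add hN0]
          congr 2
          ring
      _ ≤ ((N : ℝ) ^ (ε - η) * α) * (N : ℝ) ^ (1 - σ - ε) :=
          mul_le_mul_of_nonneg_right hk (Real.rpow_nonneg hN0.le _)
      _ = α * (N : ℝ) ^ (1 - σ - η) := by
          rw [mul_comm ((N : ℝ) ^ (ε - η)) α, mul_assoc, ← Real.rpow_add hN0]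
          congr 2
          ring
      _ ≤ 256 * S * (N : ℝ) ^ τ := g2
      _ = _ := by ring
  exact le_of_mul_le_mul_right (le_of_mul_le_mul_left g3 (by norm_num)) hτ

/-- the sum `∑ m_i ⌊θ_i p + β_i⌋` -/
noncomputable def bracketSum {r : ℕ} (m : Fin r → ℤ) (θ β : Fin r → ℝ) (p : ℕ) : ℤ :=
  ∑ i, m i * ⌊θ i * p + β i⌋

theorem bracket_diff {r : ℕ} (m : Fin r → ℤ) (θ β : Fin r → ℝ) (p q : ℕ) :
    ∃ s : Fin r → Fin 2, bracketSum m θ β p - bracketSum m θ β q =
      ∑ i, m i * (⌊θ i * (((p : ℤ) - q : ℤ) : ℝ)⌋ + ((s i : ℕ) : ℤ)) := by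
  have h : ∀ i, ∃ s : Fin 2, ⌊θ i * p + β i⌋ - ⌊θ i * q + β i⌋ =
      ⌊θ i * (((p : ℤ) - q : ℤ) : ℝ)⌋ + ((s : ℕ) : ℤ) := by
    intro i
    have e : θ i * p + β i = (θ i * q + β i) + θ i * (((p : ℤ) - q : ℤ) : ℝ) := by
      push_cast
      ring
    have h1 := Int.le_floor_add (θ i * q + β i) (θ i * (((p : ℤ) - q : ℤ) : ℝ))
    have h2 := Int.le_floor_add_floor (θ i * q + β i) (θ i * (((p : ℤ) - q : ℤ) : ℝ))
    rw [← e] at h1 h2
    have h3 : ⌊θ i * p + β i⌋ - ⌊θ i * q + β i⌋ = ⌊θ i * (((p : ℤ) - q : ℤ) : ℝ)⌋ ∨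
        ⌊θ i * p + β i⌋ - ⌊θ i * q + β i⌋ = ⌊θ i * (((p : ℤ) - q : ℤ) : ℝ)⌋ + 1 := by omega
    rcases h3 with h3 | h3
    · exact ⟨0, by rw [h3]; simp⟩
    · exact ⟨1, by rw [h3]; simp⟩
  choose s hs using h
  refine ⟨s, ?_⟩
  unfold bracketSum
  rw [← Finset.sum_sub_distrib]
  refine Finset.sum_congr rfl fun i _ => ?_
  rw [← mul_sub, hs i]

theorem floor_diff (θ β : ℝ) (p q : ℕ) :
    |((⌊θ * p + β⌋ - ⌊θ * q + β⌋ : ℤ) : ℝ)| ≤ |θ| * |(p : ℝ) - q| + 1 := by
  have h1 := Int.floor_le (θ * p + β)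
  have h2 := Int.lt_floor_add_one (θ * p + β)
  have h3 := Int.floor_le (θ * q + β)
  have h4 := Int.lt_floor_add_one (θ * q + β)
  have h5 : |θ * ((p : ℝ) - q)| = |θ| * |(p : ℝ) - q| := abs_mul _ _
  rw [← h5]
  have h6 := le_abs_self (θ * ((p : ℝ) - q))
  have h7 := neg_abs_le (θ * ((p : ℝ) - q))
  push_cast
  rw [abs_le]
  constructor <;> nlinarith

/-- bracket sums -/
theorem brackets (r : ℕ) {α σ δ ε : ℝ} (hα : 0 < α) (hα1 : α < 1) (hδ : 0 ≤ δ) (hδ1 : δ < 1 - α)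
    (hε : 0 < ε) : ∀ᶠ N : ℕ in atTop,
    ∀ (a : (p : ℕ) → ZMod p) (Q : Finset ℕ) (b : ℕ → ℤ) (m : Fin r → ℤ) (θ β : Fin r → ℝ),
      (∑ i, |(m i : ℝ)| * (|θ i| + 1) ≤ (N : ℝ) ^ (1 - α) / 100) →
      (∑ i, |(m i : ℝ)| * |β i| ≤ N / 100) →
      (∀ p ∈ Q, InRange α N p ∧ (b p : ZMod p) = a p ∧
        |((b p - bracketSum m θ β p : ℤ) : ℝ)| ≤ (N : ℝ) ^ δ) →
      (N : ℝ) ^ (-σ) * (Set.ncard {p : ℕ | InRange α N p} : ℝ) ≤ (Q.card : ℝ) →
      (N : ℝ) ^ (1 - 2 * σ - δ - ε) ≤ (coveredCount α N a : ℝ) := by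
  set η : ℝ := min ε 1 / 4 with hη
  have hm' : 0 < min ε 1 := lt_min hε one_pos
  have hη0 : 0 < η := by rw [hη]; linarith
  have hη1 : η ≤ 1 := by have := min_le_right ε 1; rw [hη]; linarith
  have hηε : 2 * η < ε := by have := min_le_left ε 1; rw [hη]; linarith
  filter_upwards [general hα hα1, ev_card hα hα1.le hη0 hη1,
    ev_const (256 * (25 * 2 ^ r) / α) (show 0 < ε - 2 * η by linarith), eventually_ge_atTop 2,
    ev_const 50 (show 0 < 1 - α - δ by linarith), ev_const 1 hα]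
    with N hg hc hk hN h50 hα1' a Q b m θ β hm hβ hb hQ
  have hN0 : (0 : ℝ) < N := by exact_mod_cast (by omega : 0 < N)
  have hN1 : (1 : ℝ) ≤ N := by exact_mod_cast (by omega : 1 ≤ N)
  have hPD : (Set.ncard {p : ℕ | InRange α N p} : ℝ) = ((PD α N).card : ℝ) := by
    have : Set.ncard {p : ℕ | InRange α N p} = (PD α N).card := by
      rw [← Set.ncard_coe_finset]
      congr 1
      ext p
      simp [mem_PD]
    exact_mod_cast this
  set x : ℝ := (N : ℝ) ^ (1 - α) with hx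
  set y : ℝ := (N : ℝ) ^ α with hy
  have hx0 : 0 < x := Real.rpow_pos_of_pos hN0 _
  have hy0 : 0 < y := Real.rpow_pos_of_pos hN0 _
  have hxy : x * y = N := by
    rw [hx, hy, ← Real.rpow_add hN0]
    norm_num
  -- `N ^ δ` is small
  have hδx : 50 * (N : ℝ) ^ δ ≤ x := by
    calc 50 * (N : ℝ) ^ δ ≤ (N : ℝ) ^ (1 - α - δ) * (N : ℝ) ^ δ :=
          mul_le_mul_of_nonneg_right h50 (Real.rpow_nonneg hN0.le _)
      _ = x := by
          rw [hx, ← Real.rpow_add hN0]
          congr 1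
          ring
  have hxN : x ≤ N := by
    calc x = x * 1 := by ring
      _ ≤ x * y := mul_le_mul_of_nonneg_left hα1' hx0.le
      _ = N := hxy
  have hδ0 : 1 ≤ (N : ℝ) ^ δ := Real.one_le_rpow hN1 hδ
  -- the representatives are small
  have hrep : Represents α N a Q b := by
    intro p hp
    obtain ⟨h1, h2, h3⟩ := hb p hp
    refine ⟨h1, h2, ?_⟩
    have h4 : |((bracketSum m θ β p : ℤ) : ℝ)| ≤ 3 * N / 100 := by
      unfold bracketSum
      push_cast
      refine (Finset.abs_sum_le_sum_abs _ _).trans ?_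
      have h5 : ∀ i ∈ (Finset.univ : Finset (Fin r)), |(m i : ℝ) * (⌊θ i * p + β i⌋ : ℝ)| ≤
          2 * y * (|(m i : ℝ)| * (|θ i| + 1)) + |(m i : ℝ)| * |β i| := by
        intro i _
        rw [abs_mul]
        have h6 : |(⌊θ i * p + β i⌋ : ℝ)| ≤ |θ i| * p + |β i| + 1 := by
          have f1 := Int.floor_le (θ i * p + β i)
          have f2 := Int.lt_floor_add_one (θ i * p + β i)
          have f3 : |θ i * p + β i| ≤ |θ i| * p + |β i| := by
            refine (abs_add_le _ _).trans ?_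
            rw [abs_mul, Nat.abs_cast]
          have f4 := le_abs_self (θ i * p + β i)
          have f5 := neg_abs_le (θ i * p + β i)
          rw [abs_le]
          constructor <;> linarith
        have h7 : (p : ℝ) ≤ 2 * y := h1.2.2.le
        have h8 : |θ i| * p + |β i| + 1 ≤ 2 * y * (|θ i| + 1) + |β i| := by
          have := mul_le_mul_of_nonneg_left h7 (abs_nonneg (θ i))
          nlinarith
        calc |(m i : ℝ)| * |(⌊θ i * p + β i⌋ : ℝ)| ≤ |(m i : ℝ)| * (2 * y * (|θ i| + 1) + |β i|) :=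
              mul_le_mul_of_nonneg_left (h6.trans h8) (abs_nonneg _)
          _ = _ := by ring
      refine (Finset.sum_le_sum h5).trans ?_
      rw [Finset.sum_add_distrib, ← Finset.mul_sum]
      calc 2 * y * ∑ i, |(m i : ℝ)| * (|θ i| + 1) + ∑ i, |(m i : ℝ)| * |β i| ≤
          2 * y * (x / 100) + N / 100 := by
            apply add_le_add _ hβ
            exact mul_le_mul_of_nonneg_left hm (by linarith)
        _ = 2 * (x * y) / 100 + N / 100 := by ring
        _ = 3 * N / 100 := by rw [hxy]; ring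
    have h9 : (b p : ℝ) = ((b p - bracketSum m θ β p : ℤ) : ℝ) +
        ((bracketSum m θ β p : ℤ) : ℝ) := by push_cast; ring
    rw [h9]
    refine (abs_add_le _ _).trans ?_
    linarith
  -- slowly varying
  have hslow : SlowlyVarying α N Q b := by
    intro p hp q hq
    by_cases hpq : p = q
    · subst hpq
      simp
    · obtain ⟨-, -, p3⟩ := hb p hp
      obtain ⟨-, -, q3⟩ := hb q hq
      have hv : (1 : ℝ) ≤ |(p : ℝ) - q| := by
        have h1 : (p : ℤ) - q ≠ 0 := by omega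
        have h2 : (1 : ℤ) ≤ |(p : ℤ) - q| := Int.one_le_abs h1
        have h3 : ((1 : ℤ) : ℝ) ≤ ((|(p : ℤ) - q| : ℤ) : ℝ) := by exact_mod_cast h2
        push_cast at h3
        exact h3
      have h4 : |((bracketSum m θ β p - bracketSum m θ β q : ℤ) : ℝ)| ≤
          x / 100 * |(p : ℝ) - q| := by
        unfold bracketSum
        rw [← Finset.sum_sub_distrib]
        push_cast
        refine (Finset.abs_sum_le_sum_abs _ _).trans ?_
        have h5 : ∀ i ∈ (Finset.univ : Finset (Fin r)),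
            |(m i : ℝ) * (⌊θ i * p + β i⌋ : ℝ) - (m i : ℝ) * (⌊θ i * q + β i⌋ : ℝ)| ≤
            |(m i : ℝ)| * (|θ i| + 1) * |(p : ℝ) - q| := by
          intro i _
          rw [← mul_sub, abs_mul, mul_assoc]
          apply mul_le_mul_of_nonneg_left _ (abs_nonneg _)
          have h6 := floor_diff (θ i) (β i) p q
          push_cast at h6
          linarith
        refine (Finset.sum_le_sum h5).trans ?_
        rw [← Finset.sum_mul]
        exact mul_le_mul_of_nonneg_right hm (abs_nonneg _)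
      have h7 : (b p : ℝ) - b q = (((b p - bracketSum m θ β p : ℤ) : ℝ) -
          ((b q - bracketSum m θ β q : ℤ) : ℝ)) +
          ((bracketSum m θ β p - bracketSum m θ β q : ℤ) : ℝ) := by push_cast; ring
      rw [h7]
      refine (abs_add_le _ _).trans ?_
      have h8 := (abs_sub (((b p - bracketSum m θ β p : ℤ) : ℝ))
          ((b q - bracketSum m θ β q : ℤ) : ℝ))
      have h9 : 2 * (N : ℝ) ^ δ ≤ x / 25 * |(p : ℝ) - q| := by
        have : x / 25 ≤ x / 25 * |(p : ℝ) - q| := le_mul_of_one_le_right (by positivity) hv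
        linarith
      have h10 : x / 25 * |(p : ℝ) - q| + x / 100 * |(p : ℝ) - q| = x / 20 * |(p : ℝ) - q| := by
        ring
      linarith
  -- the number of differences
  set Y : ℕ := ⌈y⌉₊ with hY
  set E : ℕ := ⌊(N : ℝ) ^ δ⌋₊ with hE
  have hYy : (Y : ℝ) < y + 1 := Nat.ceil_lt_add_one hy0.le
  have hEx : (E : ℝ) ≤ (N : ℝ) ^ δ := Nat.floor_le (by positivity)
  have hD : ((differences Q b).ncard : ℝ) ≤ 25 * 2 ^ r * (y * (N : ℝ) ^ δ) := by
    have h1 : (differences Q b).ncard ≤ (2 * Y + 1) * (2 ^ r * (4 * E + 1)) := by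
      set Z : Finset (ℤ × ((Fin r → Fin 2) × ℤ)) := Finset.Icc (-(Y : ℤ)) Y ×ˢ
        ((Finset.univ : Finset (Fin r → Fin 2)) ×ˢ Finset.Icc (-(2 * (E : ℤ))) (2 * E)) with hZ
      have hZc : Z.card = (2 * Y + 1) * (2 ^ r * (4 * E + 1)) := by
        rw [hZ, Finset.card_product, Finset.card_product, Int.card_Icc, Int.card_Icc,
          Finset.card_univ, Fintype.card_fun, Fintype.card_fin, Fintype.card_fin]
        congr 1
        · omega
        · congr 1
          omega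
      rw [← hZc]
      have hsub : differences Q b ⊆ ↑(Z.image (fun z : ℤ × ((Fin r → Fin 2) × ℤ) =>
          (z.1, ∑ i, m i * (⌊θ i * (z.1 : ℝ)⌋ + ((z.2.1 i : ℕ) : ℤ)) + z.2.2))) := by
        rintro w ⟨p, hp, q, hq, rfl⟩
        obtain ⟨s, hs⟩ := bracket_diff m θ β p q
        obtain ⟨p1, -, p3⟩ := hb p hp
        obtain ⟨q1, -, q3⟩ := hb q hq
        rw [Finset.mem_coe, Finset.mem_image]
        refine ⟨((p : ℤ) - q, s, (b p - bracketSum m θ β p) - (b q - bracketSum m θ β q)), ?_, ?_⟩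
        · rw [hZ, Finset.mem_product, Finset.mem_product, Finset.mem_Icc, Finset.mem_Icc]
          have hpq : |(((p : ℤ) - q : ℤ) : ℝ)| ≤ Y := by
            have h2 : y ≤ Y := Nat.le_ceil _
            have a1 := p1.2.1
            have a2 := p1.2.2
            have a3 := q1.2.1
            have a4 := q1.2.2
            push_cast
            rw [abs_le]
            constructor <;> linarith
          have hpq' : |(p : ℤ) - q| ≤ (Y : ℤ) := by exact_mod_cast hpq
          have hE1 : ∀ e : ℤ, |(e : ℝ)| ≤ (N : ℝ) ^ δ → |e| ≤ (E : ℤ) := by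
            intro e he
            have h3 : ((e.natAbs : ℕ) : ℝ) ≤ (N : ℝ) ^ δ := by
              rw [Nat.cast_natAbs, Int.cast_abs]
              exact he
            have h4 : e.natAbs ≤ E := Nat.le_floor h3
            rw [Int.abs_eq_natAbs]
            exact_mod_cast h4
          have f1 := hE1 _ p3
          have f2 := hE1 _ q3
          rw [abs_le] at hpq' f1 f2
          refine ⟨⟨by omega, by omega⟩, Finset.mem_univ _, ?_⟩
          constructor
          · change -(2 * (E : ℤ)) ≤ (b p - bracketSum m θ β p) - (b q - bracketSum m θ β q)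
            omega
          · change (b p - bracketSum m θ β p) - (b q - bracketSum m θ β q) ≤ 2 * (E : ℤ)
            omega
        · simp only [Prod.mk.injEq, true_and]
          rw [← hs]
          ring
      calc (differences Q b).ncard ≤ (Z.image (fun z : ℤ × ((Fin r → Fin 2) × ℤ) =>
          (z.1, ∑ i, m i * (⌊θ i * (z.1 : ℝ)⌋ + ((z.2.1 i : ℕ) : ℤ)) + z.2.2))).card := by
            rw [← Set.ncard_coe_finset]
            exact Set.ncard_le_ncard hsub (Finset.finite_toSet _)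
        _ ≤ Z.card := Finset.card_image_le
    have h2 : ((differences Q b).ncard : ℝ) ≤ (2 * Y + 1) * (2 ^ r * (4 * E + 1)) := by
      exact_mod_cast h1
    refine h2.trans ?_
    have h3 : 2 * (Y : ℝ) + 1 ≤ 5 * y := by linarith
    have h4 : 4 * (E : ℝ) + 1 ≤ 5 * (N : ℝ) ^ δ := by linarith
    calc (2 * (Y : ℝ) + 1) * (2 ^ r * (4 * E + 1)) ≤ (5 * y) * (2 ^ r * (5 * (N : ℝ) ^ δ)) :=
          mul_le_mul h3 (mul_le_mul_of_nonneg_left h4 (by positivity)) (by positivity)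
            (by positivity)
      _ = _ := by ring
  -- conclusion
  have g := hg a Q b hrep
  rw [parallel_empty (by omega) hslow, Nat.cast_zero, zero_div, add_zero] at g
  rw [hPD] at hQ
  set S : ℝ := (coveredCount α N a : ℝ) with hS
  set q : ℝ := (Q.card : ℝ) with hq
  have hS0 : 0 ≤ S := Nat.cast_nonneg _
  have hql : (N : ℝ) ^ (α - σ - η) ≤ q := by
    refine le_trans ?_ hQ
    calc (N : ℝ) ^ (α - σ - η) = (N : ℝ) ^ (-σ) * (N : ℝ) ^ (α - η) := by
          rw [← Real.rpow_add hN0]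
          congr 1
          ring
      _ ≤ _ := mul_le_mul_of_nonneg_left hc (Real.rpow_nonneg hN0.le _)
  have hql2 : (N : ℝ) ^ (2 * (α - σ - η)) ≤ q ^ 2 := by
    have h1 : (N : ℝ) ^ (2 * (α - σ - η)) = ((N : ℝ) ^ (α - σ - η)) ^ 2 := by
      rw [← Real.rpow_natCast, ← Real.rpow_mul hN0.le]
      congr 1
      push_cast
      ring
    rw [h1]
    exact pow_le_pow_left₀ (Real.rpow_nonneg hN0.le _) hql 2
  have g1 : α * x * (N : ℝ) ^ (2 * (α - σ - η)) ≤ 256 * S * (25 * 2 ^ r * (y * (N : ℝ) ^ δ)) := by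
    calc α * x * (N : ℝ) ^ (2 * (α - σ - η)) ≤ α * x * q ^ 2 :=
          mul_le_mul_of_nonneg_left hql2 (by positivity)
      _ ≤ 256 * S * ((differences Q b).ncard : ℝ) := g
      _ ≤ _ := mul_le_mul_of_nonneg_left hD (by positivity)
  rw [div_le_iff₀ hα] at hk
  set Cc : ℝ := 256 * (25 * 2 ^ r) with hCc
  have hCc0 : 0 < Cc := by rw [hCc]; positivity
  have hyd : 0 < y * (N : ℝ) ^ δ := by positivity
  have g3 : Cc * ((N : ℝ) ^ (1 - 2 * σ - δ - ε) * (y * (N : ℝ) ^ δ)) ≤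
      Cc * (S * (y * (N : ℝ) ^ δ)) := by
    calc Cc * ((N : ℝ) ^ (1 - 2 * σ - δ - ε) * (y * (N : ℝ) ^ δ)) =
        Cc * (N : ℝ) ^ (1 - 2 * σ - ε + α) := by
          rw [hy, ← Real.rpow_add hN0, ← Real.rpow_add hN0]
          congr 2
          ring
      _ ≤ ((N : ℝ) ^ (ε - 2 * η) * α) * (N : ℝ) ^ (1 - 2 * σ - ε + α) :=
          mul_le_mul_of_nonneg_right hk (Real.rpow_nonneg hN0.le _)
      _ = α * x * (N : ℝ) ^ (2 * (α - σ - η)) := by
          rw [hx, mul_comm ((N : ℝ) ^ (ε - 2 * η)) α, mul_assoc, mul_assoc, ← Real.rpow_add hN0,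
            ← Real.rpow_add hN0]
          congr 2
          ring
      _ ≤ 256 * S * (25 * 2 ^ r * (y * (N : ℝ) ^ δ)) := g1
      _ = _ := by rw [hCc]; ring
  exact le_of_mul_le_mul_right (le_of_mul_le_mul_left g3 hCc0) hyd

/-- Let `0 < α < 1`. (1) For all large `N`, all choices `a`, all sets `Q` of primes of the range and
all representatives `b`, the number of covered integers is at least `α / 256` times
`N ^ (1 - α) |Q| ^ 2` divided by the number of differences plus the number of parallel pairs over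
`N ^ (1 - α)`. (2) For slowly varying `b` without further conditions on the pairs: if `Q` makes up a
proportion `N ^ (-σ)` of the primes and has at most `N ^ τ |Q|` differences, at least
`N ^ (1 - σ - τ - ε)` integers are covered. (3) The same for bracket sums of length `r` with an error
`N ^ δ`, `0 ≤ δ < 1 - α`: at least `N ^ (1 - 2 σ - δ - ε)` integers are covered. -/
theorem result (α : ℝ) (hα : 0 < α) (hα1 : α < 1) :
    (∃ N₀ : ℕ, ∀ N : ℕ, N₀ ≤ N → ∀ (a : (p : ℕ) → ZMod p) (Q : Finset ℕ) (b : ℕ → ℤ),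
      Represents α N a Q b →
      α * (N : ℝ) ^ (1 - α) * (Q.card : ℝ) ^ 2 ≤ 256 * (coveredCount α N a : ℝ) *
        ((differences Q b).ncard + (parallel α N Q b).ncard / (N : ℝ) ^ (1 - α))) ∧
    (∀ σ τ ε : ℝ, 0 < ε → ∃ N₀ : ℕ, ∀ N : ℕ, N₀ ≤ N →
      ∀ (a : (p : ℕ) → ZMod p) (Q : Finset ℕ) (b : ℕ → ℤ), Represents α N a Q b →
      SlowlyVarying α N Q b →
      (N : ℝ) ^ (-σ) * (Set.ncard {p : ℕ | InRange α N p} : ℝ) ≤ (Q.card : ℝ) →
      ((differences Q b).ncard : ℝ) ≤ (N : ℝ) ^ τ * Q.card →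
      (N : ℝ) ^ (1 - σ - τ - ε) ≤ (coveredCount α N a : ℝ)) ∧
    (∀ (r : ℕ) (σ δ ε : ℝ), 0 ≤ δ → δ < 1 - α → 0 < ε → ∃ N₀ : ℕ, ∀ N : ℕ, N₀ ≤ N →
      ∀ (a : (p : ℕ) → ZMod p) (Q : Finset ℕ) (b : ℕ → ℤ) (m : Fin r → ℤ) (θ β : Fin r → ℝ),
      (∑ i, |(m i : ℝ)| * (|θ i| + 1) ≤ (N : ℝ) ^ (1 - α) / 100) →
      (∑ i, |(m i : ℝ)| * |β i| ≤ N / 100) →
      (∀ p ∈ Q, InRange α N p ∧ (b p : ZMod p) = a p ∧
        |((b p - bracketSum m θ β p : ℤ) : ℝ)| ≤ (N : ℝ) ^ δ) →
      (N : ℝ) ^ (-σ) * (Set.ncard {p : ℕ | InRange α N p} : ℝ) ≤ (Q.card : ℝ) →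
      (N : ℝ) ^ (1 - 2 * σ - δ - ε) ≤ (coveredCount α N a : ℝ)) :=
  ⟨eventually_atTop.mp (general hα hα1),
    fun _ _ _ hε => eventually_atTop.mp (doubling hα hα1 hε),
    fun r _ _ _ hδ hδ1 hε => eventually_atTop.mp (brackets r hα hα1 hδ hδ1 hε)⟩

end Pool.Agent.Results.MP_bb5cc8_nt.SmallDifferenceSets
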