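import Pool.Agent.U912.ST3

/-!
Covering by one residue class per prime: choices given by a step function with few steps.
-/

open Finset Filter Topology

namespace Pool.Agent.Results.MP_bb5cc8_nt.StepChoices

open Pool.Agent.H170R2.PC Pool.Agent.U912.ST

/-- `Q` consists of primes `N^α ≤ p < 2 N^α` and makes up a proportion at least `N^(-δ)` of them. -/
def Rich (α : ℝ) (N : ℕ) (δ : ℝ) (Q : Finset ℕ) : Prop :=
  (∀ p ∈ Q, InRange α N p) ∧
    (N : ℝ) ^ (-δ) * (Set.ncard {p : ℕ | InRange α N p} : ℝ) ≤ (Q.card : ℝ)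

/-- The steps: the integers `m` with `N^α ≤ m < 2 N^α` at which the pair `(r m, s m)` changes. -/
def steps (α : ℝ) (N : ℕ) (r s : ℕ → ℤ) : Set ℕ :=
  {m : ℕ | (N : ℝ) ^ α ≤ (m : ℝ) ∧ (m : ℝ) < 2 * (N : ℝ) ^ α ∧
    (r (m + 1), s (m + 1)) ≠ (r m, s m)}

/-- The choice `a` is near a step function: there are fractions `r m / s m` of absolute value at
most `N` with denominators `1 ≤ s m ≤ N^ρ` which change at most `N^γ` times in `[N^α, 2 N^α)`, and
for a proportion at least `N^(-δ)` of the primes `p` the class `a p` is the class modulo `p` of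
`r p / s p + e` for an integer `|e| ≤ N^δ`. -/
def NearStep (α γ δ ρ : ℝ) (N : ℕ) (a : (p : ℕ) → ZMod p) : Prop :=
  ∃ r s : ℕ → ℤ, (∀ m, 1 ≤ s m ∧ (s m : ℝ) ≤ (N : ℝ) ^ ρ ∧ |(r m : ℝ)| ≤ N * s m) ∧
    ((steps α N r s).ncard : ℝ) ≤ (N : ℝ) ^ γ ∧
    ∃ Q : Finset ℕ, Rich α N δ Q ∧ ∀ p ∈ Q, ∃ e : ℤ, |(e : ℝ)| ≤ (N : ℝ) ^ δ ∧
      (s p : ZMod p) * (a p - (e : ZMod p)) = (r p : ZMod p)

lemma rich_iff {α : ℝ} {N : ℕ} {δ : ℝ} {Q : Finset ℕ} (h : Rich α N δ Q) :
    Q ⊆ PD α N ∧ (N : ℝ) ^ (-δ) * ((PD α N).card : ℝ) ≤ (Q.card : ℝ) := by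
  refine ⟨fun p hp => mem_PD.mpr (h.1 p hp), ?_⟩
  have : Set.ncard {p : ℕ | InRange α N p} = (PD α N).card := by
    rw [← Set.ncard_coe_finset]
    congr 1
    ext p
    simp [mem_PD]
  rw [← this]
  exact h.2

/-- Let `1/2 < α < 1`, `0 ≤ γ ≤ α`, `0 ≤ δ ≤ 1`, `0 ≤ ρ < 2 α - 1`. For large `N` every choice near
a step function with at most `N^γ` steps covers at least
`N^(1 - 4δ - 4ρ - max(0, γ - (1-α)) - max(0, γ - (2α-1)) - ε)` integers of `[1, N]`. -/
theorem result (α γ δ ρ ε : ℝ) (hα : 1 / 2 < α) (hα1 : α < 1) (hγ : 0 ≤ γ) (hγα : γ ≤ α)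
    (hδ : 0 ≤ δ) (hδ1 : δ ≤ 1) (hρ : 0 ≤ ρ) (hρα : ρ < 2 * α - 1) (hε : 0 < ε) :
    ∃ N₀ : ℕ, ∀ N : ℕ, N₀ ≤ N → ∀ a : (p : ℕ) → ZMod p, NearStep α γ δ ρ N a →
      (N : ℝ) ^ (1 - 4 * δ - 4 * ρ - max 0 (γ - (1 - α)) - max 0 (γ - (2 * α - 1)) - ε)
        ≤ (coveredCount α N a : ℝ) := by
  set m1 : ℝ := max 0 (γ - (1 - α)) with hm1
  set m2 : ℝ := max 0 (γ - (2 * α - 1)) with hm2
  have hm1_0 : 0 ≤ m1 := le_max_left _ _
  have hm2_0 : 0 ≤ m2 := le_max_left _ _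
  have hm1_1 : γ - (1 - α) ≤ m1 := le_max_right _ _
  have hm2_1 : γ - (2 * α - 1) ≤ m2 := le_max_right _ _
  have hα0 : 0 < α := by linarith
  set η : ℝ := min (ε / 10) 1 with hη
  have hη0 : 0 < η := lt_min (by linarith) one_pos
  have hηε : η ≤ ε / 10 := min_le_left _ _
  have hη1 : η ≤ 1 := min_le_right _ _
  obtain ⟨C, hC0, hC⟩ := Pool.Agent.H510R2.divisor_bound η hη0
  set CC : ℝ := 27 + 14256 * ((C * 4) * (1 + 2 / η)) with hCC
  have hev : ∀ᶠ N : ℕ in atTop, ∀ a : (p : ℕ) → ZMod p, NearStep α γ δ ρ N a →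
      (N : ℝ) ^ (1 - 4 * δ - 4 * ρ - m1 - m2 - ε) ≤ (coveredCount α N a : ℝ) := by
    filter_upwards [ev_card hα0 hα1.le hη0 hη1, ev_div hα0 hα1 hη0 2 (by norm_num),
      ev_const CC hη0, ev_const 5 (show (0 : ℝ) < 2 * α - 1 - ρ by linarith),
      ev_const 9 hη0, eventually_ge_atTop 3] with N h1 h2 h3 h4 h5 hN3 a ha
    obtain ⟨r, s, hrs, hst, Q, hQ, hQe⟩ := ha
    obtain ⟨hQD, hQc⟩ := rich_iff hQ
    choose! e he1 he2 using hQe
    have hN0 : (0 : ℝ) < N := by positivity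
    have hN1 : (1 : ℝ) ≤ N := by exact_mod_cast (by omega : 1 ≤ N)
    have hDp := PD_prop (α := α) (N := N)
    -- the powers
    set y : ℝ := (N : ℝ) ^ α with hy
    set κ : ℝ := (N : ℝ) ^ (1 - α) with hκ
    set u : ℝ := (N : ℝ) ^ γ with hu
    set hh : ℝ := (N : ℝ) ^ (α - γ) with hhh
    set v : ℝ := (N : ℝ) ^ ρ with hv
    set x : ℝ := (N : ℝ) ^ δ with hx
    set T1 : ℝ := (N : ℝ) ^ m1 with hT1
    set T2 : ℝ := (N : ℝ) ^ m2 with hT2
    have y1 : 1 ≤ y := Real.one_le_rpow hN1 hα0.le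
    have κ1 : 1 ≤ κ := Real.one_le_rpow hN1 (by linarith)
    have u1 : 1 ≤ u := Real.one_le_rpow hN1 hγ
    have hh1 : 1 ≤ hh := Real.one_le_rpow hN1 (by linarith)
    have v1 : 1 ≤ v := Real.one_le_rpow hN1 hρ
    have x1 : 1 ≤ x := Real.one_le_rpow hN1 hδ
    have T11 : 1 ≤ T1 := Real.one_le_rpow hN1 hm1_0
    have T21 : 1 ≤ T2 := Real.one_le_rpow hN1 hm2_0
    have yκ : y * κ = N := by
      rw [hy, hκ, ← Real.rpow_add hN0]; simp
    have uhh : u * hh = y := by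
      rw [hu, hhh, ← Real.rpow_add hN0, hy]; congr 1; ring
    have xN : x ≤ N := by
      calc x ≤ (N : ℝ) ^ (1 : ℝ) := Real.rpow_le_rpow_of_exponent_le hN1 hδ1
        _ = N := Real.rpow_one _
    have vN : v ≤ N := by
      calc v ≤ (N : ℝ) ^ (1 : ℝ) := Real.rpow_le_rpow_of_exponent_le hN1 (by linarith)
        _ = N := Real.rpow_one _
    have yN : y ≤ N := by
      calc y ≤ (N : ℝ) ^ (1 : ℝ) := Real.rpow_le_rpow_of_exponent_le hN1 hα1.le
        _ = N := Real.rpow_one _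
    have huT : u ≤ κ * T1 := by
      rw [hκ, hT1, ← Real.rpow_add hN0, hu]
      exact Real.rpow_le_rpow_of_exponent_le hN1 (by linarith)
    have hκu : κ * u ≤ y * T2 := by
      rw [hκ, hT2, hy, hu, ← Real.rpow_add hN0, ← Real.rpow_add hN0]
      exact Real.rpow_le_rpow_of_exponent_le hN1 (by linarith)
    have h5κv : 5 * (κ * v) ≤ y := by
      have : y = (N : ℝ) ^ (2 * α - 1 - ρ) * (κ * v) := by
        rw [hy, hκ, hv, ← Real.rpow_add hN0, ← Real.rpow_add hN0]; congr 1; ring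
      rw [this]
      exact mul_le_mul_of_nonneg_right h4 (by positivity)
    have hκv1 : 1 ≤ κ * v := one_le_mul_of_one_le_of_one_le κ1 v1
    have hvκv : v ≤ κ * v := le_mul_of_one_le_left (by linarith) κ1
    -- the integers
    set Y := ⌈y⌉₊ with hY
    have hYy : y ≤ Y := Nat.le_ceil _
    have hY2 : (Y : ℝ) ≤ 2 * y := by
      have := Nat.ceil_lt_add_one (show 0 ≤ y by linarith)
      linarith
    have hY0 : 0 < Y := Nat.ceil_pos.mpr (by linarith)
    have hYR : (0 : ℝ) < Y := by exact_mod_cast hY0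
    set R := ⌊v⌋₊ with hR
    have hRv : (R : ℝ) ≤ v := Nat.floor_le (by linarith)
    have hR1 : 1 ≤ R := by
      rw [hR, Nat.one_le_floor_iff]; exact v1
    set K := 3 * N * R / Y + 1 with hK
    have hKY : 3 * N * R ≤ K * Y := by
      have := Nat.lt_div_mul_add (a := 3 * N * R) (b := Y) hY0
      rw [hK, Nat.add_mul, one_mul]
      exact this.le
    have hKr : (K : ℝ) ≤ 4 * κ * v := by
      have e1 : ((3 * N * R / Y : ℕ) : ℝ) ≤ (3 * N * R : ℕ) / (Y : ℝ) := Nat.cast_div_le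
      have e2 : ((3 * N * R : ℕ) : ℝ) / (Y : ℝ) ≤ 3 * (κ * v) := by
        rw [div_le_iff₀ hYR]
        push_cast
        calc 3 * (N : ℝ) * R ≤ 3 * (N : ℝ) * v := by gcongr
          _ = 3 * (κ * v) * y := by rw [← yκ]; ring
          _ ≤ 3 * (κ * v) * Y := by gcongr
      have e3 : (K : ℝ) = ((3 * N * R / Y : ℕ) : ℝ) + 1 := by rw [hK]; push_cast; rfl
      rw [e3]
      linarith
    have hK1 : 1 ≤ K := Nat.le_add_left 1 _
    have hKltY : K < Y := by
      have : (K : ℝ) < Y := by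
        have : 4 * κ * v = 4 * (κ * v) := by ring
        linarith
      exact_mod_cast this
    have hRltY : R < Y := by
      have : (R : ℝ) < Y := by linarith
      exact_mod_cast this
    set H := ⌈hh⌉₊ with hH
    have hHhh : hh ≤ H := Nat.le_ceil _
    have hH2 : (H : ℝ) ≤ 2 * hh := by
      have := Nat.ceil_lt_add_one (show 0 ≤ hh by linarith)
      linarith
    have hH0 : 0 < H := Nat.ceil_pos.mpr (by linarith)
    have hHR : (0 : ℝ) < H := by exact_mod_cast hH0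
    -- the steps
    classical
    set J : Finset ℕ := (range ⌈2 * y⌉₊).filter fun m => m ∈ steps α N r s with hJ
    have hJm : ∀ m : ℕ, m ∈ J ↔ ((N : ℝ) ^ α ≤ (m : ℝ) ∧ (m : ℝ) < 2 * (N : ℝ) ^ α ∧
        (r (m + 1), s (m + 1)) ≠ (r m, s m)) := by
      intro m
      rw [hJ, mem_filter, mem_range]
      constructor
      · exact fun h => h.2
      · intro h
        exact ⟨Nat.lt_ceil.mpr h.2.1, h⟩
    have hJc : (J.card : ℝ) ≤ u := by
      have : (steps α N r s).ncard = J.card := by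
        rw [← Set.ncard_coe_finset]
        congr 1
        ext m
        rw [mem_coe, hJm]
        rfl
      rw [← this]
      exact hst
    set M := J.card + 2 * Y / H + 1 with hM
    have hMu : (M : ℝ) ≤ 6 * u := by
      have e1 : ((2 * Y / H : ℕ) : ℝ) ≤ (2 * Y : ℕ) / (H : ℝ) := Nat.cast_div_le
      have e2 : ((2 * Y : ℕ) : ℝ) / (H : ℝ) ≤ 4 * u := by
        rw [div_le_iff₀ hHR]
        push_cast
        calc 2 * (Y : ℝ) ≤ 2 * (2 * y) := by gcongr
          _ = 4 * u * hh := by rw [← uhh]; ring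
          _ ≤ 4 * u * H := by gcongr
      have e3 : (M : ℝ) = J.card + ((2 * Y / H : ℕ) : ℝ) + 1 := by rw [hM]; push_cast; rfl
      rw [e3]
      linarith
    -- one error
    set k : ℕ := ⌊x⌋₊ with hk
    have hkx : (k : ℝ) ≤ x := Nat.floor_le (by linarith)
    have hek : ∀ p ∈ Q, e p ∈ Icc (-(k : ℤ)) k := by
      intro p hp
      rw [mem_Icc, ← abs_le]
      have h6 : (|e p| : ℤ) ≤ ⌊x⌋ := by
        rw [Int.le_floor]
        exact_mod_cast he1 p hp
      have h7 : (⌊x⌋₊ : ℤ) = ⌊x⌋ := Int.natCast_floor_eq_floor (by linarith)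
      rw [hk, h7]
      exact h6
    have hkc : (Icc (-(k : ℤ)) k).card = 2 * k + 1 := by
      rw [Int.card_Icc]; omega
    have hkp : (0 : ℝ) < 2 * k + 1 := by positivity
    obtain ⟨e0, he0, hQ'⟩ := Finset.exists_le_card_fiber_of_nsmul_le_card_of_maps_to
      (s := Q) (t := Icc (-(k : ℤ)) k) (f := e) (b := (Q.card : ℝ) / (2 * k + 1)) hek
      ⟨0, by rw [mem_Icc]; constructor <;> omega⟩ (by
        rw [hkc, nsmul_eq_mul]
        push_cast
        rw [mul_div_cancel₀ _ hkp.ne'])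
    set Q' := Q.filter fun p => e p = e0 with hQ'd
    have hQ'Q : Q' ⊆ Q := filter_subset _ _
    have he0x : |(e0 : ℝ)| ≤ x := by
      have := abs_le.mpr (mem_Icc.mp he0)
      have : |(e0 : ℝ)| ≤ k := by exact_mod_cast this
      linarith
    have hRI : ∀ p ∈ Q', (N : ℝ) ^ α ≤ (p : ℝ) ∧ (p : ℝ) < 2 * (N : ℝ) ^ α := by
      intro p hp
      exact (mem_PD.mp (hQD (hQ'Q hp))).2
    set d0 : ℕ := ⌊C * (4 * (N : ℝ) ^ (3 * η))⌋₊ with hd0
    have hd0r : (d0 : ℝ) ≤ C * 4 * (N : ℝ) ^ (3 * η) := by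
      have := Nat.floor_le (show 0 ≤ C * (4 * (N : ℝ) ^ (3 * η)) by positivity)
      refine this.trans (le_of_eq ?_)
      ring
    set c0 : ℕ := N / (2 * Y) - 1 with hc0
    have hc1 : (N : ℝ) ^ (1 - α - η) ≤ c0 := h2
    have hc0pos : 1 ≤ c0 := by
      have : (0 : ℝ) < c0 := lt_of_lt_of_le (by positivity) hc1
      exact_mod_cast this
    have hcore := step_core (D := PD α N) (Q := Q') (a := a) (Y := Y) (N := N) (c0 := c0) (K := K)
      (H := H) (M := M) (d0 := d0) (R := R) (hQ'Q.trans hQD) hDp hY0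
      (fun p => r p + s p * e0) s (fun p => (J.filter (· < p)).card + p / H)
      (by
        intro p hp
        have e1 : (J.filter (· < p)).card ≤ J.card := card_filter_le _ _
        have e2 : p / H ≤ 2 * Y / H := Nat.div_le_div_right (hDp p (hQD (hQ'Q hp))).2.2
        change (J.filter (· < p)).card + p / H < M
        omega)
      (by
        intro p hp
        refine ⟨(hrs p).1, ?_⟩
        have h6 : s p ≤ ⌊v⌋ := Int.le_floor.mpr (hrs p).2.1
        have h7 : (⌊v⌋₊ : ℤ) = ⌊v⌋ := Int.natCast_floor_eq_floor (by linarith)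
        rw [hR, h7]
        exact h6)
      (by
        intro p hp
        have e1 := he2 p (hQ'Q hp)
        have e2 : e p = e0 := (mem_filter.mp hp).2
        rw [e2] at e1
        push_cast
        linear_combination e1)
      (by
        intro p hp q hq hw
        obtain ⟨p1, p2⟩ := hRI p hp
        obtain ⟨q1, q2⟩ := hRI q hq
        obtain ⟨g1, g2, g3⟩ := index_lemma hH0 J hJm p1 p2 q1 q2 hw
        refine ⟨?_, g2, g3⟩
        change r p + s p * e0 = r q + s q * e0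
        rw [g1, g2])
      (by
        intro p hp
        have e1 := (hrs p).2.2
        have e2 := (hrs p).1
        have e3 : (1 : ℝ) ≤ s p := by exact_mod_cast e2
        have e4 : |((r p + s p * e0 : ℤ) : ℝ)| ≤ 2 * N * s p := by
          push_cast
          refine (abs_add_le _ _).trans ?_
          rw [abs_mul, abs_of_nonneg (by linarith : (0 : ℝ) ≤ s p)]
          have e5 : (s p : ℝ) * |(e0 : ℝ)| ≤ s p * N :=
            mul_le_mul_of_nonneg_left (he0x.trans xN) (by linarith)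
          linarith
        exact_mod_cast e4)
      hKY hKltY hRltY
      (by
        intro z hz hzN
        have e1 := hC z.natAbs (Int.natAbs_pos.mpr hz)
        rw [hd0]
        refine Nat.le_floor (e1.trans (mul_le_mul_of_nonneg_left ?_ hC0.le))
        have e2 : ((z.natAbs : ℕ) : ℝ) ≤ 4 * (N : ℝ) ^ (3 : ℝ) := by
          have e3 : (|z| : ℝ) ≤ 4 * N * (R : ℝ) ^ 2 := by exact_mod_cast hzN
          have e4 : (R : ℝ) ≤ N := hRv.trans vN
          rw [Nat.cast_natAbs]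
          push_cast
          refine e3.trans ?_
          have : (N : ℝ) ^ (3 : ℝ) = N * (N : ℝ) ^ 2 := by
            rw [show (3 : ℝ) = ((3 : ℕ) : ℝ) by norm_num, Real.rpow_natCast]; ring
          rw [this, mul_assoc]
          gcongr
        calc ((z.natAbs : ℕ) : ℝ) ^ η ≤ (4 * (N : ℝ) ^ (3 : ℝ)) ^ η := by gcongr
          _ = 4 ^ η * (N : ℝ) ^ (3 * η) := by
            rw [Real.mul_rpow (by norm_num) (by positivity), ← Real.rpow_mul hN0.le]
          _ ≤ 4 * (N : ℝ) ^ (3 * η) := by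
            have : (4 : ℝ) ^ η ≤ 4 ^ (1 : ℝ) :=
              Real.rpow_le_rpow_of_exponent_le (by norm_num) hη1
            rw [Real.rpow_one] at this
            gcongr)
      (by
        intro p hp
        refine card_Cl_ge (hDp p hp).1.pos ?_
        have e1 : (c0 + 1) * p ≤ (c0 + 1) * (2 * Y) := Nat.mul_le_mul_left _ (hDp p hp).2.2
        have e2 : c0 + 1 ≤ N / (2 * Y) := by omega
        exact e1.trans ((Nat.mul_le_mul_right _ e2).trans (Nat.div_mul_le_self _ _)))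
    rw [coveredCount_eq]
    set S := (Cov (PD α N) a N).card with hS
    set L := 4 * (R * K) * H / Y with hL
    set Vv := V H (R * K) with hVv
    have hmR : ((c0 : ℝ) * Q'.card) ^ 2 ≤ S * ((Q'.card : ℝ) * (2 * K + 1) +
        (M : ℝ) ^ 2 * (d0 * (2 * (L + 1) * Vv))) := by exact_mod_cast hcore
    set Λ : ℝ := 1 + 2 * Real.log N with hΛ
    have hlogN : 0 ≤ Real.log N := Real.log_nonneg hN1
    have hΛ1 : 1 ≤ Λ := by linarith
    have hLy : (L : ℝ) * y ≤ 4 * ((R : ℝ) * K) * H := by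
      have e1 : L * Y ≤ 4 * (R * K) * H := Nat.div_mul_le_self _ _
      have e2 : (L : ℝ) * Y ≤ 4 * ((R : ℝ) * K) * H := by exact_mod_cast e1
      exact (mul_le_mul_of_nonneg_left hYy (Nat.cast_nonneg _)).trans e2
    have hRK1 : (1 : ℝ) ≤ (R : ℝ) * K := by
      have e1 : (1 : ℝ) ≤ R := by exact_mod_cast hR1
      have e2 : (1 : ℝ) ≤ K := by exact_mod_cast hK1
      exact one_le_mul_of_one_le_of_one_le e1 e2
    have hVΛ : (Vv : ℝ) ≤ ((H : ℝ) + (R : ℝ) * K) * Λ := by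
      have e1 := V_le H (R * K)
      rw [← hVv] at e1
      push_cast at e1
      have e2 : Real.log ((R : ℝ) * K) ≤ 2 * Real.log N := by
        have e3 : (K : ℝ) ≤ N := by
          have : 4 * κ * v = 4 * (κ * v) := by ring
          linarith
        have e4 : (R : ℝ) ≤ N := hRv.trans vN
        have e5 : (R : ℝ) * K ≤ (N : ℝ) ^ 2 := by
          calc (R : ℝ) * K ≤ N * N := mul_le_mul e4 e3 (Nat.cast_nonneg _) hN0.le
            _ = _ := by ring
        have e6 := Real.log_le_log (by linarith) e5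
        rwa [Real.log_pow] at e6
      have e7 : (H : ℝ) * (1 + Real.log ((R : ℝ) * K)) ≤ H * Λ := by
        refine mul_le_mul_of_nonneg_left ?_ hHR.le
        linarith
      have e8 : (R : ℝ) * K ≤ (R : ℝ) * K * Λ := le_mul_of_one_le_right (by linarith) hΛ1
      calc (Vv : ℝ) ≤ H * (1 + Real.log ((R : ℝ) * K)) + (R : ℝ) * K := e1
        _ ≤ H * Λ + (R : ℝ) * K * Λ := add_le_add e7 e8
        _ = _ := by ring
    have hQ'y : (Q'.card : ℝ) ≤ 3 * y := by
      have e1 : Q' ⊆ Icc Y (2 * Y) := fun p hp => mem_Icc.mpr (hDp p (hQD (hQ'Q hp))).2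
      have e2 := card_le_card e1
      rw [Nat.card_Icc] at e2
      have e3 : Q'.card ≤ Y + 1 := by omega
      have e4 : (Q'.card : ℝ) ≤ Y + 1 := by exact_mod_cast e3
      linarith [Nat.ceil_lt_add_one (show 0 ≤ y by linarith), y1]
    have hW := real_bound (N := (N : ℝ)) (y := y) (κ := κ) (u := u) (h := hh) (v := v) (T1 := T1)
      (T2 := T2) (Λ := Λ) (d0 := (d0 : ℝ)) (K := (K : ℝ)) (M := (M : ℝ)) (H := (H : ℝ))
      (L := (L : ℝ)) (Vv := (Vv : ℝ)) (q := (Q'.card : ℝ)) (R := (R : ℝ)) yκ uhh κ1 u1 v1 y1 T11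
      T21 huT hκu hΛ1 (Nat.cast_nonneg _) (Nat.cast_nonneg _) hKr (Nat.cast_nonneg _) hMu
      hRv (Nat.cast_nonneg _) hH2 (Nat.cast_nonneg _) hLy (Nat.cast_nonneg _)
      hVΛ hQ'y
    -- the constant
    have hconst : 27 + 14256 * ((d0 : ℝ) * Λ) ≤ (N : ℝ) ^ (5 * η) := by
      have e1 : Λ ≤ (1 + 2 / η) * (N : ℝ) ^ η := by
        have e2 := Real.log_le_rpow_div hN0.le hη0
        have e3 : 1 ≤ (N : ℝ) ^ η := Real.one_le_rpow hN1 hη0.le
        have e4 : (1 + 2 / η) * (N : ℝ) ^ η = (N : ℝ) ^ η + 2 * ((N : ℝ) ^ η / η) := by ring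
        rw [e4]
        linarith
      have e5 : (d0 : ℝ) * Λ ≤ (C * 4) * (1 + 2 / η) * (N : ℝ) ^ (4 * η) := by
        calc (d0 : ℝ) * Λ ≤ (C * 4 * (N : ℝ) ^ (3 * η)) * ((1 + 2 / η) * (N : ℝ) ^ η) := by
              gcongr
          _ = (C * 4) * (1 + 2 / η) * ((N : ℝ) ^ (3 * η) * (N : ℝ) ^ η) := by ring
          _ = _ := by rw [← Real.rpow_add hN0]; congr 2; ring
      have e6 : 1 ≤ (N : ℝ) ^ (4 * η) := Real.one_le_rpow hN1 (by linarith)
      calc 27 + 14256 * ((d0 : ℝ) * Λ)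
          ≤ 27 * (N : ℝ) ^ (4 * η) + 14256 * ((C * 4) * (1 + 2 / η) * (N : ℝ) ^ (4 * η)) := by
            linarith
        _ = CC * (N : ℝ) ^ (4 * η) := by rw [hCC]; ring
        _ ≤ (N : ℝ) ^ η * (N : ℝ) ^ (4 * η) := by gcongr
        _ = _ := by rw [← Real.rpow_add hN0]; congr 1; ring
    have hS0 : (0 : ℝ) ≤ S := Nat.cast_nonneg _
    have hup : ((c0 : ℝ) * Q'.card) ^ 2
        ≤ S * ((N : ℝ) ^ (5 * η) * (v ^ 4 * (N * (T1 * T2)))) := by
      refine hmR.trans (mul_le_mul_of_nonneg_left (hW.trans ?_) hS0)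
      gcongr
    -- the lower bound
    have hlow : (N : ℝ) ^ (1 - 2 * η) ≤ 3 * x ^ 2 * ((c0 : ℝ) * Q'.card) := by
      have e1 : (N : ℝ) ^ (-δ) * (N : ℝ) ^ (α - η) ≤ Q.card :=
        (mul_le_mul_of_nonneg_left h1 (by positivity)).trans hQc
      have e2 : (Q.card : ℝ) ≤ 3 * x * Q'.card := by
        have e3 : (Q.card : ℝ) ≤ Q'.card * (2 * k + 1) := (div_le_iff₀ hkp).mp hQ'
        have e4 : (2 * (k : ℝ) + 1) ≤ 3 * x := by linarith
        calc (Q.card : ℝ) ≤ Q'.card * (2 * k + 1) := e3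
          _ ≤ Q'.card * (3 * x) := by gcongr
          _ = _ := by ring
      have e5 : (N : ℝ) ^ (1 - α - η) * ((N : ℝ) ^ (-δ) * (N : ℝ) ^ (α - η))
          ≤ c0 * (3 * x * Q'.card) :=
        mul_le_mul hc1 (e1.trans e2) (by positivity) (Nat.cast_nonneg _)
      have e6 : (N : ℝ) ^ (1 - 2 * η)
          = ((N : ℝ) ^ (1 - α - η) * ((N : ℝ) ^ (-δ) * (N : ℝ) ^ (α - η))) * x := by
        rw [hx, ← Real.rpow_add hN0, ← Real.rpow_add hN0, ← Real.rpow_add hN0]
        congr 1; ring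
      rw [e6]
      calc _ ≤ (c0 * (3 * x * Q'.card)) * x := mul_le_mul_of_nonneg_right e5 (by linarith)
        _ = _ := by ring
    have hfin : ((N : ℝ) ^ (1 - 2 * η)) ^ 2
        ≤ (N : ℝ) ^ η * x ^ 4 * (S * ((N : ℝ) ^ (5 * η) * (v ^ 4 * (N * (T1 * T2))))) := by
      calc ((N : ℝ) ^ (1 - 2 * η)) ^ 2 ≤ (3 * x ^ 2 * ((c0 : ℝ) * Q'.card)) ^ 2 :=
            pow_le_pow_left₀ (by positivity) hlow 2
        _ = 9 * x ^ 4 * ((c0 : ℝ) * Q'.card) ^ 2 := by ring
        _ ≤ (N : ℝ) ^ η * x ^ 4 * (S * ((N : ℝ) ^ (5 * η) * (v ^ 4 * (N * (T1 * T2))))) := by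
          refine mul_le_mul ?_ hup (by positivity) (by positivity)
          gcongr
    have hx4 : x ^ 4 = (N : ℝ) ^ (4 * δ) := by
      rw [hx, ← Real.rpow_natCast, ← Real.rpow_mul hN0.le]; congr 1; push_cast; ring
    have hv4 : v ^ 4 = (N : ℝ) ^ (4 * ρ) := by
      rw [hv, ← Real.rpow_natCast, ← Real.rpow_mul hN0.le]; congr 1; push_cast; ring
    have hpow : ((N : ℝ) ^ (1 - 2 * η)) ^ 2 = (N : ℝ) ^ (1 - 4 * δ - 4 * ρ - m1 - m2 - 10 * η) *
        ((N : ℝ) ^ η * (N : ℝ) ^ (4 * δ) * ((N : ℝ) ^ (5 * η) *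
          ((N : ℝ) ^ (4 * ρ) * (N * (T1 * T2))))) := by
      have e1 : (N : ℝ) = (N : ℝ) ^ (1 : ℝ) := (Real.rpow_one _).symm
      have e2 : (N : ℝ) * (T1 * T2) = (N : ℝ) ^ (1 + (m1 + m2)) := by
        rw [Real.rpow_add hN0, Real.rpow_add hN0, Real.rpow_one]
      rw [e2, ← Real.rpow_natCast, ← Real.rpow_mul hN0.le, ← Real.rpow_add hN0,
        ← Real.rpow_add hN0, ← Real.rpow_add hN0, ← Real.rpow_add hN0, ← Real.rpow_add hN0]
      congr 1
      push_cast
      ring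
    rw [hx4, hv4, hpow] at hfin
    have hpos : 0 < (N : ℝ) ^ η * (N : ℝ) ^ (4 * δ) * ((N : ℝ) ^ (5 * η) *
          ((N : ℝ) ^ (4 * ρ) * (N * (T1 * T2)))) := by positivity
    have hSf : (N : ℝ) ^ (1 - 4 * δ - 4 * ρ - m1 - m2 - 10 * η) ≤ S := by
      refine le_of_mul_le_mul_right (hfin.trans (le_of_eq ?_)) hpos
      ring
    refine le_trans (Real.rpow_le_rpow_of_exponent_le hN1 ?_) hSf
    linarith
  obtain ⟨N₀, hN₀⟩ := eventually_atTop.mp hev
  exact ⟨N₀, fun N hN a ha => hN₀ N hN a ha⟩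

end Pool.Agent.Results.MP_bb5cc8_nt.StepChoices
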